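import Pool.Agent.Lib_helper74.VL.Defs

/-!
# Abbreviations
-/

set_option autoImplicit false

namespace Pool.Agent.VL

/-- The field of algebraic numbers. -/
abbrev Qbar : Type := AlgebraicClosure ℚ

/-- The absolute Galois group of `K`. -/
abbrev GalK (K : Type) [Field K] [Algebra K Qbar] : Type := Qbar ≃ₐ[K] Qbar

end Pool.Agent.VL
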