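import Pool.Agent.Lib_helper74.VL.CRT
import Pool.Agent.Lib_helper51.VLD.Dens

/-!
# The two analytic ingredients
-/

set_option autoImplicit false

namespace Pool.Agent.VL

/-- The density of the primes at which some `d i` is not a square. -/
theorem dens {n : ℕ} (d : Fin n → ℚ) (hd : ∀ i, d i ≠ 0)
    (h : ∀ s : Finset (Fin n), s.Nonempty → ¬ IsSquare (∏ i ∈ s, d i)) (δ : ℝ) (hδ0 : 0 ≤ δ)
    (hδ : δ < 1 - 1 / 2 ^ n) :
    Pool.Agent.RS.Main.DirichletGE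
      {ℓ | ∀ _ : Fact ℓ.Prime, ∃ i, ¬ IsSquare ((d i : ℚ) : ℚ_[ℓ])} δ :=
  Pool.Agent.VLD.dens d hd h δ hδ0 hδ

end Pool.Agent.VL
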