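import Mathlib

set_option autoImplicit false

namespace Pool.Agent.VL

open Matrix Topology

section small

variable {ℓ : ℕ} [Fact ℓ.Prime] {m : ℕ}

/-- All entries have absolute value at most `c`. -/
def CrtSmall (c : ℝ) (A : Matrix (Fin m) (Fin m) ℚ_[ℓ]) : Prop := ∀ i j, ‖A i j‖ ≤ c

theorem crt_mono {c d : ℝ} (h : c ≤ d) {A : Matrix (Fin m) (Fin m) ℚ_[ℓ]} (hA : CrtSmall c A) :
    CrtSmall d A := fun i j => (hA i j).trans h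

theorem crt_add {c : ℝ} {A B : Matrix (Fin m) (Fin m) ℚ_[ℓ]} (hA : CrtSmall c A)
    (hB : CrtSmall c B) : CrtSmall c (A + B) := by
  intro i j
  rw [Matrix.add_apply]
  exact (Padic.nonarchimedean _ _).trans (max_le (hA i j) (hB i j))

theorem crt_zero {c : ℝ} (hc : 0 ≤ c) : CrtSmall c (0 : Matrix (Fin m) (Fin m) ℚ_[ℓ]) := by
  intro i j
  rw [Matrix.zero_apply, norm_zero]
  exact hc

theorem crt_sum {ι : Type} {c : ℝ} (hc : 0 ≤ c) (s : Finset ι)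
    (A : ι → Matrix (Fin m) (Fin m) ℚ_[ℓ]) (hA : ∀ i ∈ s, CrtSmall c (A i)) :
    CrtSmall c (∑ i ∈ s, A i) := by
  classical
  induction s using Finset.induction_on with
  | empty => rw [Finset.sum_empty]; exact crt_zero hc
  | insert a s ha ih =>
    rw [Finset.sum_insert ha]
    exact crt_add (hA a (Finset.mem_insert_self a s))
      (ih fun i hi => hA i (Finset.mem_insert_of_mem hi))

theorem crt_mul {c d : ℝ} (hc : 0 ≤ c) (hd : 0 ≤ d) {A B : Matrix (Fin m) (Fin m) ℚ_[ℓ]}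
    (hA : CrtSmall c A) (hB : CrtSmall d B) : CrtSmall (c * d) (A * B) := by
  intro i j
  rw [Matrix.mul_apply]
  have h : ∀ s : Finset (Fin m), ‖∑ t ∈ s, A i t * B t j‖ ≤ c * d := by
    intro s
    classical
    induction s using Finset.induction_on with
    | empty => rw [Finset.sum_empty, norm_zero]; exact mul_nonneg hc hd
    | insert a s ha ih =>
      rw [Finset.sum_insert ha]
      refine (Padic.nonarchimedean _ _).trans (max_le ?_ ih)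
      rw [norm_mul]
      exact mul_le_mul (hA i a) (hB a j) (norm_nonneg _) hc
  exact h _

theorem crt_one : CrtSmall 1 (1 : Matrix (Fin m) (Fin m) ℚ_[ℓ]) := by
  intro i j
  rw [Matrix.one_apply]
  split_ifs
  · rw [norm_one]
  · rw [norm_zero]
    exact zero_le_one

/-- Powers of a matrix close to `1`. -/
theorem crt_pow {c : ℝ} (hc : 0 ≤ c) (hc1 : c ≤ 1) {A : Matrix (Fin m) (Fin m) ℚ_[ℓ]}
    (hA : CrtSmall c (A - 1)) (n : ℕ) : CrtSmall c (A ^ n - 1) := by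
  induction n with
  | zero =>
    rw [pow_zero, sub_self]
    exact crt_zero hc
  | succ n ih =>
    have h1 : A ^ (n + 1) - 1 = (A ^ n - 1) * (A - 1) + (A ^ n - 1) + (A - 1) := by
      rw [pow_succ]
      noncomm_ring
    rw [h1]
    refine crt_add (crt_add (crt_mono ?_ (crt_mul hc hc ih hA)) ih) hA
    calc c * c ≤ c * 1 := mul_le_mul_of_nonneg_left hc1 hc
      _ = c := mul_one c

theorem crt_pow_l {c : ℝ} (hc : 0 ≤ c) (hcl : c ≤ (ℓ : ℝ)⁻¹) {A : Matrix (Fin m) (Fin m) ℚ_[ℓ]}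
    (hA : CrtSmall c (A - 1)) : CrtSmall (c * (ℓ : ℝ)⁻¹) (A ^ ℓ - 1) := by
  have hℓ : (1 : ℝ) ≤ ℓ := by exact_mod_cast (Fact.out : ℓ.Prime).one_lt.le
  have hl0 : (0 : ℝ) ≤ (ℓ : ℝ)⁻¹ := by positivity
  have hl1 : (ℓ : ℝ)⁻¹ ≤ 1 := inv_le_one_of_one_le₀ hℓ
  have h1 : A ^ ℓ - 1 = (A - 1) * ∑ i ∈ Finset.range ℓ, A ^ i := (mul_geom_sum A ℓ).symm
  rw [h1]
  refine crt_mul hc hl0 hA ?_
  have h2 : ∑ i ∈ Finset.range ℓ, A ^ i = ∑ i ∈ Finset.range ℓ, (A ^ i - 1) +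
      (ℓ : Matrix (Fin m) (Fin m) ℚ_[ℓ]) := by
    rw [Finset.sum_sub_distrib, Finset.sum_const, Finset.card_range, nsmul_eq_mul, mul_one,
      sub_add_cancel]
  rw [h2]
  refine crt_add (crt_sum hl0 _ _ fun i _ => crt_mono hcl (crt_pow hc (hcl.trans hl1) hA i)) ?_
  intro i j
  have h3 : (ℓ : Matrix (Fin m) (Fin m) ℚ_[ℓ]) i j = if i = j then (ℓ : ℚ_[ℓ]) else 0 := by
    rw [Matrix.natCast_apply]
    split_ifs
    · rfl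
    · exact Nat.cast_zero
  rw [h3]
  split_ifs
  · rw [Padic.norm_p]
  · rw [norm_zero]
    exact hl0

theorem crt_pow_lM {A : Matrix (Fin m) (Fin m) ℚ_[ℓ]} (hA : CrtSmall (ℓ : ℝ)⁻¹ (A - 1)) (M : ℕ) :
    CrtSmall ((ℓ : ℝ)⁻¹ ^ (M + 1)) (A ^ ℓ ^ M - 1) := by
  have hℓ : (1 : ℝ) ≤ ℓ := by exact_mod_cast (Fact.out : ℓ.Prime).one_lt.le
  have hl0 : (0 : ℝ) ≤ (ℓ : ℝ)⁻¹ := by positivity
  have hl1 : (ℓ : ℝ)⁻¹ ≤ 1 := inv_le_one_of_one_le₀ hℓ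
  induction M with
  | zero =>
    rw [pow_zero, zero_add, pow_one, pow_one]
    exact hA
  | succ M ih =>
    rw [pow_succ ℓ M, pow_mul, pow_succ _ (M + 1)]
    apply crt_pow_l (pow_nonneg hl0 _) _ ih
    calc (ℓ : ℝ)⁻¹ ^ (M + 1) = (ℓ : ℝ)⁻¹ ^ M * (ℓ : ℝ)⁻¹ := pow_succ _ _
      _ ≤ 1 * (ℓ : ℝ)⁻¹ := mul_le_mul_of_nonneg_right (pow_le_one₀ hl0 hl1) hl0
      _ = (ℓ : ℝ)⁻¹ := one_mul _

/-- The exponents. -/
theorem crt_exp {A B : Matrix (Fin m) (Fin m) ℚ_[ℓ]} (hA : CrtSmall (ℓ : ℝ)⁻¹ (A - 1))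
    (hB : CrtSmall (ℓ : ℝ)⁻¹ (B - 1)) {M a b : ℕ} (hM : 0 < M) (ha : a ≡ 1 [MOD ℓ ^ M])
    (hb : b ≡ 0 [MOD ℓ ^ M]) :
    CrtSmall ((2 : ℝ)⁻¹ ^ M) (A ^ a * B ^ b - A) ∧
      CrtSmall ((2 : ℝ)⁻¹ ^ M) (B ^ b * A ^ a - A) := by
  have h2ℓ : (2 : ℝ) ≤ ℓ := by exact_mod_cast (Fact.out : ℓ.Prime).two_le
  have hl0 : (0 : ℝ) ≤ (ℓ : ℝ)⁻¹ := by positivity
  have hl2 : (ℓ : ℝ)⁻¹ ≤ (2 : ℝ)⁻¹ := inv_anti₀ two_pos h2ℓ
  have hl1 : (ℓ : ℝ)⁻¹ ≤ 1 := hl2.trans (by norm_num)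
  have hs0 : (0 : ℝ) ≤ (2 : ℝ)⁻¹ ^ M := by positivity
  have hs1 : (2 : ℝ)⁻¹ ^ M ≤ 1 := pow_le_one₀ (by norm_num) (by norm_num)
  have hbound : (ℓ : ℝ)⁻¹ ^ (M + 1) ≤ (2 : ℝ)⁻¹ ^ M := by
    calc (ℓ : ℝ)⁻¹ ^ (M + 1) ≤ (ℓ : ℝ)⁻¹ ^ M := pow_le_pow_of_le_one hl0 hl1 (Nat.le_succ M)
      _ ≤ (2 : ℝ)⁻¹ ^ M := pow_le_pow_left₀ hl0 hl2 M
  have hA1 : CrtSmall 1 A := by
    have h1 : A = (A - 1) + 1 := by rw [sub_add_cancel]
    rw [h1]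
    exact crt_add (crt_mono hl1 hA) crt_one
  have hE : ∀ {X : Matrix (Fin m) (Fin m) ℚ_[ℓ]}, CrtSmall (ℓ : ℝ)⁻¹ (X - 1) → ∀ n : ℕ,
      CrtSmall ((2 : ℝ)⁻¹ ^ M) (X ^ (ℓ ^ M * n) - 1) := by
    intro X hX n
    rw [pow_mul]
    exact crt_pow hs0 hs1 (crt_mono hbound (crt_pow_lM hX M)) n
  have hone : 1 < ℓ ^ M := Nat.one_lt_pow hM.ne' (Fact.out : ℓ.Prime).one_lt
  have ha' : a = ℓ ^ M * (a / ℓ ^ M) + 1 := by
    have h1 := Nat.div_add_mod a (ℓ ^ M)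
    have h2 : a % ℓ ^ M = 1 := by
      have h3 : a % ℓ ^ M = 1 % ℓ ^ M := ha
      rwa [Nat.mod_eq_of_lt hone] at h3
    omega
  have hb' : b = ℓ ^ M * (b / ℓ ^ M) := by
    have h1 := Nat.div_add_mod b (ℓ ^ M)
    have h2 : b % ℓ ^ M = 0 := by
      have h3 : b % ℓ ^ M = 0 % ℓ ^ M := hb
      rwa [Nat.zero_mod] at h3
    omega
  have hEa : CrtSmall ((2 : ℝ)⁻¹ ^ M) (A ^ a - A) := by
    have h1 : A ^ a - A = (A ^ (ℓ ^ M * (a / ℓ ^ M)) - 1) * A := by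
      rw [sub_mul, one_mul, ← pow_succ, ← ha']
    rw [h1]
    exact crt_mono (by rw [mul_one]) (crt_mul hs0 zero_le_one (hE hA _) hA1)
  have hEb : CrtSmall ((2 : ℝ)⁻¹ ^ M) (B ^ b - 1) := by
    rw [hb']
    exact hE hB _
  have hAa : CrtSmall 1 (A ^ a) := by
    have h1 : A ^ a = (A ^ a - 1) + 1 := by rw [sub_add_cancel]
    rw [h1]
    exact crt_add (crt_mono hl1 (crt_pow hl0 hl1 hA a)) crt_one
  constructor
  · have h1 : A ^ a * B ^ b - A = A ^ a * (B ^ b - 1) + (A ^ a - A) := by noncomm_ring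
    rw [h1]
    exact crt_add (crt_mono (by rw [one_mul]) (crt_mul zero_le_one hs0 hAa hEb)) hEa
  · have h1 : B ^ b * A ^ a - A = (B ^ b - 1) * A ^ a + (A ^ a - A) := by noncomm_ring
    rw [h1]
    exact crt_add (crt_mono (by rw [mul_one]) (crt_mul hs0 zero_le_one hEb hAa)) hEa

end small

/-- Powers accumulate at `1` in a compact group. -/
theorem crt_recur {G : Type} [Group G] [TopologicalSpace G] [IsTopologicalGroup G]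
    [CompactSpace G] (x : G) (U : Set G) (hU : U ∈ 𝓝 (1 : G)) : ∃ k : ℕ, 0 < k ∧ x ^ k ∈ U := by
  obtain ⟨y, hy⟩ := exists_clusterPt_of_compactSpace (Filter.map (fun n : ℕ => x ^ n) Filter.atTop)
  have hc : Filter.Tendsto (fun z : G × G => z.1⁻¹ * z.2) (𝓝 y ×ˢ 𝓝 y) (𝓝 (1 : G)) := by
    have h1 : Continuous fun z : G × G => z.1⁻¹ * z.2 := continuous_fst.inv.mul continuous_snd
    have h2 := h1.tendsto (y, y)
    rw [nhds_prod_eq] at h2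
    simpa using h2
  have hpre := hc hU
  rw [Filter.mem_map] at hpre
  obtain ⟨W, hW, hWU⟩ := Filter.mem_prod_same_iff.mp hpre
  have hfreq : ∃ᶠ n : ℕ in Filter.atTop, x ^ n ∈ W := by
    have h1 : MapClusterPt y Filter.atTop (fun n : ℕ => x ^ n) := hy
    exact h1.frequently hW
  obtain ⟨n₁, hn₁⟩ := hfreq.exists
  obtain ⟨n₂, hn₂, hn₂W⟩ := (Filter.frequently_atTop.mp hfreq) (n₁ + 1)
  refine ⟨n₂ - n₁, by omega, ?_⟩
  have h1 : ((x ^ n₁, x ^ n₂) : G × G) ∈ W ×ˢ W := ⟨hn₁, hn₂W⟩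
  have h2 := hWU h1
  have h3 : (x ^ n₁)⁻¹ * x ^ n₂ = x ^ (n₂ - n₁) := by
    rw [inv_mul_eq_iff_eq_mul, ← pow_add]
    congr 1
    omega
  rw [← h3]
  exact h2

/-- Block CRT. -/
theorem crt {G : Type} [Group G] [TopologicalSpace G] [IsTopologicalGroup G] [CompactSpace G]
    {m : ℕ} (V : ∀ (ℓ : ℕ) [Fact ℓ.Prime], G →* Matrix (Fin m) (Fin m) ℚ_[ℓ])
    (hV : ∀ (ℓ : ℕ) [Fact ℓ.Prime], Continuous (V ℓ)) (Λ : Finset ℕ) (p : ℕ) [Fact p.Prime]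
    (hp : p ∉ Λ) (g h : G) : ∃ k : ℕ, 0 < k ∧ ∀ ε : ℝ, 0 < ε → ∃ s : G,
      (∀ ℓ ∈ Λ, ∀ _ : Fact ℓ.Prime, ∀ i j, ‖(V ℓ s - V ℓ (g ^ k)) i j‖ < ε) ∧
      ∀ i j, ‖(V p s - V p (h ^ k)) i j‖ < ε := by
  classical
  -- the neighbourhood of `1`
  have hnear : ∀ (ℓ : ℕ) [Fact ℓ.Prime],
      {x : G | ∀ i j, ‖(V ℓ x - 1) i j‖ < (ℓ : ℝ)⁻¹} ∈ 𝓝 (1 : G) := by
    intro ℓ hℓ
    have h1 : ∀ i j, ∀ᶠ x in 𝓝 (1 : G), ‖(V ℓ x - 1) i j‖ < (ℓ : ℝ)⁻¹ := by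
      intro i j
      have h2 : Continuous fun x : G => ‖(V ℓ x - 1) i j‖ := by
        apply Continuous.norm
        exact ((hV ℓ).sub continuous_const).matrix_elem i j
      have h3 : ‖(V ℓ 1 - 1) i j‖ < (ℓ : ℝ)⁻¹ := by
        rw [map_one, sub_self, Matrix.zero_apply, norm_zero, inv_pos]
        exact_mod_cast hℓ.out.pos
      exact h2.continuousAt.eventually_lt continuousAt_const h3
    exact Filter.eventually_all.mpr fun i => Filter.eventually_all.mpr fun j => h1 i j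
  have hU : {x : G | ∀ ℓ ∈ insert p Λ, ∀ _ : Fact ℓ.Prime, ∀ i j,
      ‖(V ℓ x - 1) i j‖ < (ℓ : ℝ)⁻¹} ∈ 𝓝 (1 : G) := by
    have h1 : ∀ᶠ x in 𝓝 (1 : G), ∀ ℓ ∈ insert p Λ, ∀ _ : Fact ℓ.Prime, ∀ i j,
        ‖(V ℓ x - 1) i j‖ < (ℓ : ℝ)⁻¹ := by
      rw [Filter.eventually_all_finset]
      intro ℓ _
      by_cases hℓ : ℓ.Prime
      · have hℓF : Fact ℓ.Prime := ⟨hℓ⟩
        filter_upwards [hnear ℓ] with x hx _
        exact hx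
      · filter_upwards with x hℓF
        exact absurd hℓF.out hℓ
    exact h1
  obtain ⟨k, hk, hkU⟩ := crt_recur ((g, h) : G × G) _ (prod_mem_nhds hU hU)
  have hgk : ∀ ℓ ∈ insert p Λ, ∀ _ : Fact ℓ.Prime, CrtSmall (ℓ : ℝ)⁻¹ (V ℓ (g ^ k) - 1) :=
    fun ℓ hℓ hℓF i j => (hkU.1 ℓ hℓ hℓF i j).le
  have hhk : ∀ ℓ ∈ insert p Λ, ∀ _ : Fact ℓ.Prime, CrtSmall (ℓ : ℝ)⁻¹ (V ℓ (h ^ k) - 1) :=
    fun ℓ hℓ hℓF i j => (hkU.2 ℓ hℓ hℓF i j).le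
  refine ⟨k, hk, fun ε hε => ?_⟩
  obtain ⟨M, hM⟩ := exists_pow_lt_of_lt_one hε (by norm_num : (2 : ℝ)⁻¹ < 1)
  have hM1 : (2 : ℝ)⁻¹ ^ (M + 1) < ε :=
    lt_of_le_of_lt (pow_le_pow_of_le_one (by norm_num) (by norm_num) (Nat.le_succ M)) hM
  -- the exponents
  set P : ℕ := ∏ ℓ ∈ Λ.filter Nat.Prime, ℓ ^ (M + 1) with hP
  have hpp : p.Prime := Fact.out
  have hcop : Nat.Coprime P (p ^ (M + 1)) := by
    apply Nat.Coprime.prod_left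
    intro ℓ hℓ
    rw [Finset.mem_filter] at hℓ
    apply Nat.Coprime.pow
    rw [Nat.coprime_primes hℓ.2 hpp]
    rintro rfl
    exact hp hℓ.1
  obtain ⟨a, ha1, ha2⟩ := Nat.chineseRemainder hcop 1 0
  obtain ⟨b, hb1, hb2⟩ := Nat.chineseRemainder hcop 0 1
  have hdvd : ∀ ℓ ∈ Λ, ℓ.Prime → ℓ ^ (M + 1) ∣ P := by
    intro ℓ hℓ hℓp
    exact Finset.dvd_prod_of_mem (fun l => l ^ (M + 1)) (Finset.mem_filter.mpr ⟨hℓ, hℓp⟩)
  refine ⟨(g ^ k) ^ a * (h ^ k) ^ b, ?_, ?_⟩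
  · intro ℓ hℓ hℓF i j
    have hmem : ℓ ∈ insert p Λ := Finset.mem_insert_of_mem hℓ
    have h1 := (crt_exp (hgk ℓ hmem hℓF) (hhk ℓ hmem hℓF) (Nat.succ_pos M)
      (ha1.of_dvd (hdvd ℓ hℓ hℓF.out)) (hb1.of_dvd (hdvd ℓ hℓ hℓF.out))).1 i j
    rw [map_mul, map_pow (V ℓ) (g ^ k), map_pow (V ℓ) (h ^ k)]
    exact lt_of_le_of_lt h1 hM1
  · intro i j
    have hmem : p ∈ insert p Λ := Finset.mem_insert_self p Λ
    have h1 := (crt_exp (hhk p hmem inferInstance) (hgk p hmem inferInstance) (Nat.succ_pos M)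
      hb2 ha2).2 i j
    rw [map_mul, map_pow (V p) (g ^ k), map_pow (V p) (h ^ k)]
    exact lt_of_le_of_lt h1 hM1

end Pool.Agent.VL
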