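import Mathlib

/-!
# Definitions: compatible systems of orthogonal representations
-/

set_option autoImplicit false

namespace Pool.Agent.VL

open NumberField Polynomial

section

variable {K L : Type} [Field K] [Field L] [Algebra K L]

/-- The place of `K` below the prime ideal `𝔓` of the ring of integers of `L`. -/
noncomputable def below (K : Type) {L : Type} [Field K] [Field L] [Algebra K L]
    (𝔓 : Ideal (𝓞 L)) : Ideal (𝓞 K) :=
  𝔓.comap (algebraMap (𝓞 K) (𝓞 L))

/-- `σ` is a Frobenius element at `𝔓`: it induces `x ↦ x ^ q` modulo `𝔓`, where `q` is the number of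
elements of the residue field of `K`. -/
def IsFrob (𝔓 : Ideal (𝓞 L)) (σ : L ≃ₐ[K] L) : Prop :=
  ∀ x y : 𝓞 L, (y : L) = σ x → y - x ^ Nat.card (𝓞 K ⧸ below K 𝔓) ∈ 𝔓

/-- The representations `V ℓ` of the Galois group of `L` over `K` (`L` is the field of algebraic
numbers) of degree `m` over `ℚ_[ℓ]`, for all prime numbers `ℓ`, are continuous and orthogonal (they
preserve some nondegenerate symmetric form), and for every maximal ideal `𝔭` of `𝓞 K` that does not
belong to the finite set `S` the rational polynomial `P 𝔭` is the characteristic polynomial of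
`V ℓ (σ⁻¹)` for every Frobenius element `σ` at an ideal `𝔓` over `𝔭` and every prime number `ℓ` that
does not belong to `𝔓`. -/
structure OrthogonalSystem {m : ℕ} (S : Finset (Ideal (𝓞 K))) (P : Ideal (𝓞 K) → ℚ[X])
    (V : ∀ (ℓ : ℕ) [Fact ℓ.Prime], (L ≃ₐ[K] L) →* Matrix (Fin m) (Fin m) ℚ_[ℓ]) : Prop where
  continuous : ∀ (ℓ : ℕ) [Fact ℓ.Prime], Continuous (V ℓ)
  orthogonal : ∀ (ℓ : ℕ) [Fact ℓ.Prime], ∃ J : Matrix (Fin m) (Fin m) ℚ_[ℓ],
    J.transpose = J ∧ J.det ≠ 0 ∧ ∀ σ, (V ℓ σ).transpose * J * V ℓ σ = J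
  charpoly : ∀ (ℓ : ℕ) [Fact ℓ.Prime] (𝔓 : Ideal (𝓞 L)), 𝔓.IsMaximal → (ℓ : 𝓞 L) ∉ 𝔓 →
    below K 𝔓 ∉ S → ∀ σ : L ≃ₐ[K] L, IsFrob 𝔓 σ →
      (V ℓ σ⁻¹).charpoly = (P (below K 𝔓)).map (algebraMap ℚ ℚ_[ℓ])

end

/-- The factorization `P = C * R` into monic polynomials, such that all complex roots of `C` are
roots of unity and no complex root of `R` is a root of unity. -/
structure CyclotomicFactorization (P C R : ℚ[X]) : Prop where
  monic_left : C.Monic
  monic_right : R.Monic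
  eq_mul : P = C * R
  left : ∀ z : ℂ, aeval z C = 0 → ∃ n : ℕ, 0 < n ∧ z ^ n = 1
  right : ∀ z : ℂ, aeval z R = 0 → ∀ n : ℕ, 0 < n → z ^ n ≠ 1

/-- Every subquotient `W₂ / W₁` of the representation `ρ` of the group `G` on the vector space `M`
on which an open subgroup acts trivially has dimension less than `r`. -/
def FewTateClasses {G M : Type} [Group G] [TopologicalSpace G] (k : Type) [Field k]
    [AddCommGroup M] [Module k M] (ρ : G → M → M) (r : ℕ) : Prop :=
  ∀ H : Subgroup G, IsOpen (H : Set G) → ∀ W₁ W₂ : Submodule k M, W₁ ≤ W₂ →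
    (∀ σ ∈ H, ∀ x ∈ W₂, ρ σ x - x ∈ W₁) →
      Module.finrank k W₂ < Module.finrank k W₁ + r

/-- The set `A` of prime numbers has lower Dirichlet density at least `δ`, in the strong sense
`∑_{p ∈ A} p^{-s} ≥ δ log (1 / (s - 1)) - O(1)` for `s > 1`. -/
def DensityGE (A : Set ℕ) (δ : ℝ) : Prop :=
  ∃ C : ℝ, ∀ s : ℝ, 1 < s →
    δ * Real.log (1 / (s - 1)) - C ≤ ∑' p : Nat.Primes, A.indicator (fun q : ℕ => (q : ℝ) ^ (-s)) p

end Pool.Agent.VL
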