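import Pool.Agent.Lib_helper74.VL.MA

/-!
# Two places decide: the final theorem
-/

set_option autoImplicit false

namespace Pool.Agent.VL

open NumberField Polynomial Topology Module
open Pool.Agent.RS.Main (DirichletGE)

section

variable {K : Type} [Field K] [NumberField K] [Algebra K Qbar] {m : ℕ}

/-- No product over a nonempty subset of `E` is a square. -/
def Ind (E : Finset ℚ) : Prop := ∀ s ⊆ E, s.Nonempty → ¬ IsSquare (∏ x ∈ s, x)

/-- Arbitrarily many independent classes. -/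
theorem many {V : ∀ (ℓ : ℕ) [Fact ℓ.Prime], GalK K →* Matrix (Fin m) (Fin m) ℚ_[ℓ]}
    {S : Finset (Ideal (𝓞 K))} {P : Ideal (𝓞 K) → ℚ[X]} (hV : OrthogonalSystem S P V)
    {𝔓 𝔓' : Ideal (𝓞 Qbar)} {g g' : GalK K} {C R C' R' : ℚ[X]} (h : Pl V 𝔓 g C R)
    (h' : Pl V 𝔓' g' C' R') {r : ℕ} (hC : C.natDegree = r) (hC' : C'.natDegree = r)
    (hD : ¬ IsSquare (DD R * DD R'))
    (hmin : ∀ 𝔓' g' C' R', Pl V 𝔓' g' C' R' → r ≤ C'.natDegree) (n : ℕ) :
    ∃ E : Finset ℚ, E.card = n ∧ Ind E ∧ (∀ x ∈ E, x ≠ 0) ∧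
      ∀ x ∈ E, ∃ 𝔓₁ g₁ C₁ R₁, Pl V 𝔓₁ g₁ C₁ R₁ ∧ C₁.natDegree = r ∧ x = DD R₁ * DD R := by
  classical
  obtain ⟨u, hu, hu𝔓⟩ := Pool.Agent.OS.ar_prime 𝔓 h.max
  induction n with
  | zero =>
    refine ⟨∅, rfl, ?_, ?_, ?_⟩
    · intro s hs hs2
      rw [Finset.subset_empty.mp hs] at hs2
      exact absurd hs2 Finset.not_nonempty_empty
    · intro x hx
      exact absurd hx (Finset.notMem_empty x)
    · intro x hx
      exact absurd hx (Finset.notMem_empty x)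
  | succ n ih =>
    obtain ⟨E, hEcard, hEind, hE0, hE⟩ := ih
    -- separating primes
    have hsep : ∀ s : Finset ℚ, ∃ p : ℕ, p ∉ ({u} : Finset ℕ) ∧ p.Prime ∧
        (s ⊆ E → s.Nonempty → ∀ _ : Fact p.Prime, ¬ IsSquare (((∏ x ∈ s, x : ℚ)) : ℚ_[p])) := by
      intro s
      by_cases hs : s ⊆ E ∧ s.Nonempty
      · obtain ⟨p, hp, hpF, hp2⟩ := nonsq_prime (hEind s hs.1 hs.2) {u}
        exact ⟨p, hp, hpF.out, fun _ _ _ => hp2⟩
      · obtain ⟨p, hp, hpp⟩ := Nat.exists_infinite_primes (u + 1)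
        refine ⟨p, ?_, hpp, fun h1 h2 => absurd ⟨h1, h2⟩ hs⟩
        rw [Finset.mem_singleton]
        omega
    choose f hf1 hf2 hf3 using hsep
    obtain ⟨𝔓₁, g₁, C₁, R₁, hPl, hdeg, hns, hsq⟩ := step hV h h' hC hC' hD hmin
      (E.powerset.image f) (by
        intro ℓ hℓ hmem
        rw [Finset.mem_image] at hℓ
        obtain ⟨s, _, rfl⟩ := hℓ
        apply hf1 s
        rw [Finset.mem_singleton]
        exact Pool.Agent.OS.ar_unique 𝔓 h.max.ne_top (hf2 s) hu hmem hu𝔓)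
    set d := DD R₁ * DD R with hd
    have hd0 : d ≠ 0 := mul_ne_zero (dd_ne hPl.fac) (dd_ne h.fac)
    have hdE : d ∉ E := by
      intro hmem
      have hs : ({d} : Finset ℚ) ⊆ E := Finset.singleton_subset_iff.mpr hmem
      have hF : Fact (f {d}).Prime := ⟨hf2 _⟩
      apply hf3 {d} hs (Finset.singleton_nonempty d) hF
      rw [Finset.prod_singleton]
      exact hsq _ (Finset.mem_image_of_mem f (Finset.mem_powerset.mpr hs)) hF
    refine ⟨insert d E, by rw [Finset.card_insert_of_notMem hdE, hEcard], ?_, ?_, ?_⟩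
    · intro t ht htne
      by_cases hdt : d ∈ t
      · have ht2 : t = insert d (t.erase d) := (Finset.insert_erase hdt).symm
        have hs : t.erase d ⊆ E := by
          intro x hx
          rw [Finset.mem_erase] at hx
          exact (Finset.mem_insert.mp (ht hx.2)).resolve_left hx.1
        rw [ht2, Finset.prod_insert (Finset.notMem_erase d t)]
        intro hcon
        by_cases hne : (t.erase d).Nonempty
        · have hF : Fact (f (t.erase d)).Prime := ⟨hf2 _⟩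
          apply hf3 _ hs hne hF
          have h1 := cast_sq hcon (f (t.erase d))
          have h2 := hsq _ (Finset.mem_image_of_mem f (Finset.mem_powerset.mpr hs)) hF
          rw [Rat.cast_mul] at h1
          have h3 : ((d : ℚ) : ℚ_[f (t.erase d)]) ≠ 0 := by exact_mod_cast hd0
          have h4 := sq_trans (a := (1 : ℚ_[f (t.erase d)])) h3 (by rw [one_mul]; exact h2) h1
          rw [one_mul] at h4
          exact h4
        · rw [Finset.not_nonempty_iff_eq_empty] at hne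
          rw [hne, Finset.prod_empty, mul_one] at hcon
          exact hns hcon
      · have hs : t ⊆ E := by
          intro x hx
          rcases Finset.mem_insert.mp (ht hx) with rfl | hx2
          · exact absurd hx hdt
          · exact hx2
        exact hEind t hs htne
    · intro x hx
      rcases Finset.mem_insert.mp hx with rfl | hx2
      · exact hd0
      · exact hE0 x hx2
    · intro x hx
      rcases Finset.mem_insert.mp hx with rfl | hx2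
      · exact ⟨𝔓₁, g₁, C₁, R₁, hPl, hdeg, rfl⟩
      · exact hE x hx2

/-- All primes. -/
theorem dge_univ {δ : ℝ} (h0 : 0 ≤ δ) (h1 : δ < 1) : DirichletGE Set.univ δ := by
  have h2 := Pool.Agent.DS.cha (1 : Pool.Agent.DS.GQ →* PUnit) (by
    have : ((1 : Pool.Agent.DS.GQ →* PUnit).ker : Set Pool.Agent.DS.GQ) = Set.univ := by
      ext x
      simp
    rw [this]
    exact isOpen_univ) (fun x => ⟨1, rfl⟩) Set.univ (fun _ _ _ => Set.mem_univ _) h0 (by
    have : (Nat.card (Set.univ : Set PUnit) : ℝ) / Nat.card PUnit = 1 := by simp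
    rw [this]
    exact h1)
  exact Pool.Agent.VLD.dge_finite h2 ∅ fun _ _ _ _ => Set.mem_univ _

/-- Part (b). -/
theorem part_b {V : ∀ (ℓ : ℕ) [Fact ℓ.Prime], GalK K →* Matrix (Fin m) (Fin m) ℚ_[ℓ]}
    {S : Finset (Ideal (𝓞 K))} {P : Ideal (𝓞 K) → ℚ[X]} (hV : OrthogonalSystem S P V)
    {𝔓 𝔓' : Ideal (𝓞 Qbar)} {g g' : GalK K} {C R C' R' : ℚ[X]} (h : Pl V 𝔓 g C R)
    (h' : Pl V 𝔓' g' C' R') {r : ℕ} (hC : C.natDegree = r) (hC' : C'.natDegree = r)
    (hD : ¬ IsSquare (DD R * DD R')) (δ : ℝ) (hδ0 : 0 ≤ δ) (hδ1 : δ < 1) :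
    DirichletGE {ℓ | ∃ _ : Fact ℓ.Prime, FewTateClasses ℚ_[ℓ] (fun σ => (V ℓ σ).mulVec) r} δ := by
  classical
  by_cases hmin : ∀ 𝔓' g' C' R', Pl V 𝔓' g' C' R' → r ≤ C'.natDegree
  · obtain ⟨n, hn⟩ : ∃ n : ℕ, δ < 1 - 1 / 2 ^ n := by
      obtain ⟨n, hn⟩ := exists_pow_lt_of_lt_one (sub_pos.mpr hδ1) (by norm_num : (1 / 2 : ℝ) < 1)
      refine ⟨n, ?_⟩
      rw [one_div_pow] at hn
      linarith
    obtain ⟨E, hEcard, hEind, hE0, hE⟩ := many hV h h' hC hC' hD hmin n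
    let e : Fin n ≃ E := (E.equivFinOfCardEq hEcard).symm
    let d : Fin n → ℚ := fun i => (e i : ℚ)
    have hdinj : Function.Injective d := Subtype.val_injective.comp e.injective
    have h1 := dens d (fun i => hE0 _ (e i).2) (by
      intro s hs
      have h2 : ∏ i ∈ s, d i = ∏ x ∈ s.image d, x := by
        rw [Finset.prod_image (fun a _ b _ hab => hdinj hab)]
      rw [h2]
      apply hEind
      · intro x hx
        rw [Finset.mem_image] at hx
        obtain ⟨i, _, rfl⟩ := hx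
        exact (e i).2
      · exact hs.image d) δ hδ0 hn
    have h2 : ∀ i : Fin n, ∃ (q : ℕ) (𝔓₁ : Ideal (𝓞 Qbar)) (g₁ : GalK K) (C₁ R₁ : ℚ[X]),
        Pl V 𝔓₁ g₁ C₁ R₁ ∧ C₁.natDegree = r ∧
        d i = DD R₁ * DD R ∧ q.Prime ∧ (q : 𝓞 Qbar) ∈ 𝔓₁ := by
      intro i
      obtain ⟨𝔓₁, g₁, C₁, R₁, hPl, hdeg, hx⟩ := hE _ (e i).2
      obtain ⟨q, hq, hq𝔓⟩ := Pool.Agent.OS.ar_prime 𝔓₁ hPl.max
      exact ⟨q, 𝔓₁, g₁, C₁, R₁, hPl, hdeg, hx, hq, hq𝔓⟩
    choose q 𝔓₁ g₁ C₁ R₁ hPl hdeg hx hq hq𝔓 using h2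
    obtain ⟨u, hu, hu𝔓⟩ := Pool.Agent.OS.ar_prime 𝔓 h.max
    apply Pool.Agent.VLD.dge_finite h1 (insert u (Finset.univ.image q))
    intro p hpS hp hpB
    rw [Finset.mem_insert, not_or, Finset.mem_image, not_exists] at hpB
    have hF : Fact p.Prime := ⟨hp⟩
    refine ⟨hF, ?_⟩
    obtain ⟨i, hi⟩ := hpS hF
    refine part_a hV (hPl i) h (hdeg i) hC p ?_ ?_ ?_
    · intro hmem
      apply hpB.2 i
      exact ⟨Finset.mem_univ i,
        Pool.Agent.OS.ar_unique (𝔓₁ i) (hPl i).max.ne_top (hq i) hp (hq𝔓 i) hmem⟩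
    · intro hmem
      exact hpB.1 (Pool.Agent.OS.ar_unique 𝔓 h.max.ne_top hp hu hmem hu𝔓)
    · rw [← hx i]
      exact hi
  · push Not at hmin
    obtain ⟨𝔓₂, g₂, C₂, R₂, hPl, hlt⟩ := hmin
    obtain ⟨u, hu, hu𝔓⟩ := Pool.Agent.OS.ar_prime 𝔓₂ hPl.max
    apply Pool.Agent.VLD.dge_finite (dge_univ hδ0 hδ1) {u}
    intro p _ hp hpB
    have hF : Fact p.Prime := ⟨hp⟩
    refine ⟨hF, one_small hPl hlt p ?_⟩
    intro hmem
    apply hpB
    rw [Finset.mem_singleton]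
    exact Pool.Agent.OS.ar_unique 𝔓₂ hPl.max.ne_top hp hu hmem hu𝔓

/-- **The main theorem.** -/
theorem final (S : Finset (Ideal (𝓞 K))) (P : Ideal (𝓞 K) → ℚ[X])
    (V : ∀ (ℓ : ℕ) [Fact ℓ.Prime], GalK K →* Matrix (Fin m) (Fin m) ℚ_[ℓ])
    (hV : OrthogonalSystem S P V) (v w : Ideal (𝓞 K)) (hvm : v.IsMaximal) (hwm : w.IsMaximal)
    (hv : v ∉ S) (hw : w ∉ S) (C R C' R' : ℚ[X]) (hvf : CyclotomicFactorization (P v) C R)
    (hwf : CyclotomicFactorization (P w) C' R') (r : ℕ) (hC : C.natDegree = r)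
    (hC' : C'.natDegree = r) (D : ℚ)
    (hD : D = (R.eval 1 * R.eval (-1)) * (R'.eval 1 * R'.eval (-1))) (hsq : ¬ IsSquare D) :
    (∀ (ℓ : ℕ) [Fact ℓ.Prime], (ℓ : 𝓞 K) ∉ v → (ℓ : 𝓞 K) ∉ w → ¬ IsSquare (D : ℚ_[ℓ]) →
      FewTateClasses ℚ_[ℓ] (fun σ => (V ℓ σ).mulVec) r) ∧
    ∀ δ : ℝ, 0 ≤ δ → δ < 1 →
      DensityGE {ℓ | ∃ _ : Fact ℓ.Prime, FewTateClasses ℚ_[ℓ] (fun σ => (V ℓ σ).mulVec) r} δ := by
  obtain ⟨𝔓, g, hb, h⟩ := pl_of_place hV hvm hv hvf
  obtain ⟨𝔓', g', hb', h'⟩ := pl_of_place hV hwm hw hwf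
  have hDD : D = DD R * DD R' := hD
  constructor
  · intro ℓ _ hℓ hℓ' hns
    refine part_a hV h h' hC hC' ℓ ?_ ?_ (by rw [← hDD]; exact hns)
    · rw [← mem_iff (K := K), hb]
      exact hℓ
    · rw [← mem_iff (K := K), hb']
      exact hℓ'
  · intro δ h0 h1
    exact part_b hV h h' hC hC' (by rw [← hDD]; exact hsq) δ h0 h1

end

end Pool.Agent.VL
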