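import Pool.Agent.Lib_helper74.VL.LM
import Pool.Agent.Lib_helper46.OS.AR
import Pool.Agent.Lib_helper61.TB.Dens
import Pool.Agent.Lib_helper61.TB.FT

/-!
# Frobenius elements
-/

set_option autoImplicit false

namespace Pool.Agent.VL

open NumberField Polynomial Topology

section

variable {K : Type} [Field K] [NumberField K] [Algebra K Qbar]

/-- Frobenius elements exist. -/
theorem geo_place (v : Ideal (𝓞 K)) (hv : v.IsMaximal) :
    ∃ 𝔓 : Ideal (𝓞 Qbar), 𝔓.IsMaximal ∧ below K 𝔓 = v ∧ ∃ σ : GalK K, IsFrob 𝔓 σ := by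
  have hint : Algebra.IsIntegral ℤ (𝓞 Qbar) := inferInstance
  have hint2 : Algebra.IsIntegral (𝓞 K) (𝓞 Qbar) := Algebra.IsIntegral.tower_top (R := ℤ)
  have hinj : Function.Injective (algebraMap (𝓞 K) (𝓞 Qbar)) := by
    intro x y h
    apply NumberField.RingOfIntegers.coe_injective
    apply (algebraMap K Qbar).injective
    exact congrArg (fun z : 𝓞 Qbar => (z : Qbar)) h
  obtain ⟨𝔓, h𝔓, h𝔓2⟩ := Ideal.exists_ideal_over_maximal_of_isIntegral (S := 𝓞 Qbar) v
    (by rw [(RingHom.injective_iff_ker_eq_bot _).mp hinj]; exact bot_le)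
  obtain ⟨σ, hσ⟩ := Pool.Agent.OS.ar_frob (K := K) 𝔓 h𝔓
  exact ⟨𝔓, h𝔓, h𝔓2, σ, hσ⟩

/-- Frobenius elements are dense. -/
theorem geo_dense (S : Finset (Ideal (𝓞 K))) (B : Finset ℕ) (g : GalK K) (U : Set (GalK K))
    (hU : U ∈ 𝓝 g) : ∃ 𝔓 : Ideal (𝓞 Qbar), 𝔓.IsMaximal ∧ below K 𝔓 ∉ S ∧
      (∀ ℓ ∈ B, ℓ.Prime → (ℓ : 𝓞 Qbar) ∉ 𝔓) ∧ ∃ σ : GalK K, IsFrob 𝔓 σ ∧ σ⁻¹ ∈ U := by
  classical
  have hU' : {σ : Qbar ≃ₐ[K] Qbar | σ⁻¹ ∈ U} ∈ 𝓝 g⁻¹ := by
    apply continuous_inv.continuousAt.preimage_mem_nhds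
    rw [inv_inv]
    exact hU
  obtain ⟨q, hq, hqB, Q, hQ, hqQ, σ, hσU, hσ⟩ := Pool.Agent.TB.fb_dense g⁻¹ _ hU'
    (S.image (fun 𝔭 => ringChar (𝓞 K ⧸ 𝔭)) ∪ B)
  rw [Finset.mem_union, not_or] at hqB
  obtain ⟨hqS, hqB⟩ := hqB
  have hmax := Pool.Agent.OS.ar_max hq Q hQ hqQ
  have hB : below K Q ∉ S := by
    intro h
    apply hqS
    rw [Finset.mem_image]
    refine ⟨_, h, ?_⟩
    obtain ⟨hmax', -⟩ := Pool.Agent.OS.ar_finite (K := K) Q hmax
    have h1 : (q : 𝓞 K ⧸ below K Q) = 0 := by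
      have h2 : (q : 𝓞 K) ∈ below K Q := by
        rw [below, Ideal.mem_comap, map_natCast]
        exact hqQ
      have h3 := Ideal.Quotient.eq_zero_iff_mem.mpr h2
      rwa [map_natCast] at h3
    rcases (Nat.dvd_prime hq).mp (ringChar.dvd h1) with h2 | h2
    · exfalso
      have h3 := ringChar.charP (𝓞 K ⧸ below K Q)
      rw [h2] at h3
      have h4 : ((1 : ℕ) : 𝓞 K ⧸ below K Q) = 0 := CharP.cast_eq_zero _ _
      rw [Nat.cast_one] at h4
      have : Nontrivial (𝓞 K ⧸ below K Q) := Ideal.Quotient.nontrivial_iff.mpr hmax'.ne_top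
      exact one_ne_zero h4
    · exact h2
  refine ⟨Q, hmax, hB, ?_, σ, ?_, hσU⟩
  · intro ℓ hℓ hℓp hmem
    exact hqB (Pool.Agent.OS.ar_unique Q hmax.ne_top hq hℓp hqQ hmem ▸ hℓ)
  · have hqF : Fact q.Prime := ⟨hq⟩
    obtain ⟨φ, hφ, -⟩ := Pool.Agent.TF.ft_phi hq hQ hqQ hσ
    have hker : RingHom.ker φ = below K Q := by
      ext x
      rw [RingHom.mem_ker, hφ, below, Ideal.mem_comap]
    have hcard : Nat.card (𝓞 K ⧸ below K Q) = q := by
      rw [← hker]
      have hsurj : Function.Surjective φ := ZMod.ringHom_surjective φ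
      rw [Nat.card_congr (RingHom.quotientKerEquivOfSurjective hsurj).toEquiv, Nat.card_zmod]
    intro x y hxy
    rw [hcard]
    exact hσ x y hxy

end

/-- Every monic polynomial has a cyclotomic factorization. -/
theorem cyc_exists (P : ℚ[X]) (hP : P.Monic) : ∃ C R : ℚ[X], CyclotomicFactorization P C R := by
  classical
  have key : ∀ n : ℕ, ∀ P : ℚ[X], P.Monic → P.natDegree = n →
      ∃ C R : ℚ[X], CyclotomicFactorization P C R := by
    intro n
    induction n using Nat.strong_induction_on with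
    | _ n ih =>
      intro P hP hn
      by_cases hex : ∃ z : ℂ, aeval z P = 0 ∧ ∃ j : ℕ, 0 < j ∧ z ^ j = 1
      · obtain ⟨z, hz, j, hj, hzj⟩ := hex
        have hint : IsIntegral ℚ z := ⟨P, hP, hz⟩
        have hmm : (minpoly ℚ z).Monic := minpoly.monic hint
        obtain ⟨P', hP'⟩ := minpoly.dvd ℚ z hz
        have hP'm : P'.Monic := hmm.of_mul_monic_left (by rw [← hP']; exact hP)
        have hdeg : P'.natDegree < n := by
          have h1 := congrArg Polynomial.natDegree hP'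
          rw [hmm.natDegree_mul hP'm, hn] at h1
          have h2 := minpoly.natDegree_pos hint
          omega
        obtain ⟨C, R, hCR⟩ := ih _ hdeg P' hP'm rfl
        refine ⟨minpoly ℚ z * C, R, hmm.mul hCR.monic_left, hCR.monic_right, ?_, ?_, hCR.right⟩
        · rw [hP', hCR.eq_mul, mul_assoc]
        · intro t ht
          rw [map_mul, mul_eq_zero] at ht
          rcases ht with ht | ht
          · refine ⟨j, hj, ?_⟩
            have h1 : aeval z (X ^ j - 1 : ℚ[X]) = 0 := by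
              rw [map_sub, map_pow, aeval_X, map_one, hzj, sub_self]
            obtain ⟨c, hc⟩ := minpoly.dvd ℚ z h1
            have h2 := congrArg (aeval t) hc
            rw [map_mul, ht, zero_mul, map_sub, map_pow, aeval_X, map_one, sub_eq_zero] at h2
            exact h2
          · exact hCR.left t ht
      · push Not at hex
        refine ⟨1, P, Polynomial.monic_one, hP, (one_mul P).symm, ?_, ?_⟩
        · intro z hz
          rw [map_one] at hz
          exact absurd hz one_ne_zero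
        · intro z hz j hj
          exact hex z hz j hj
  exact key _ P hP rfl

/-- `R` is prime to `X ^ j - 1`, over every field. -/
theorem cyc_coprime {P C R : ℚ[X]} (h : CyclotomicFactorization P C R) {k : Type} [Field k]
    (φ : ℚ →+* k) (j : ℕ) (hj : 0 < j) : IsCoprime (R.map φ) (X ^ j - 1) := by
  have h1 : IsCoprime R (X ^ j - 1) := by
    refine (Polynomial.isCoprime_iff_aeval_ne_zero_of_isAlgClosed ℚ ℂ _ _).mpr ?_
    intro z
    by_cases hz : aeval z R = 0
    · right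
      intro h2
      rw [map_sub, map_pow, aeval_X, map_one, sub_eq_zero] at h2
      exact h.right z hz j hj h2
    · left
      exact hz
  have h2 := h1.map (Polynomial.mapRingHom φ)
  simpa using h2

end Pool.Agent.VL
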