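import Mathlib

/-!
# Discriminants of isometries, part 1: determinants of skew-symmetric matrices
-/

set_option autoImplicit false

namespace Pool.Agent.VL

open Matrix

variable {k : Type} [Field k]

/-- The determinant of a skew-symmetric matrix is a square. -/
theorem skew_sq (h2 : (2 : k) ≠ 0) : ∀ (m : ℕ) {n : Type} [Fintype n] [DecidableEq n]
    (A : Matrix n n k), Fintype.card n = m → Aᵀ = -A → IsSquare A.det := by
  intro m
  induction m using Nat.strong_induction_on with
  | _ m ih =>
    intro n _ _ A hm hA
    have hanti : ∀ i j, A j i = - A i j := by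
      intro i j
      have := congrFun (congrFun hA i) j
      simpa using this
    have hdiag : ∀ i, A i i = 0 := by
      intro i
      have h1 := hanti i i
      have h3 : (2 : k) * A i i = 0 := by linear_combination h1
      exact (mul_eq_zero.mp h3).resolve_left h2
    by_cases hA0 : A = 0
    · subst hA0
      by_cases hn : IsEmpty n
      · rw [Matrix.det_isEmpty]
        exact IsSquare.one
      · rw [not_isEmpty_iff] at hn
        rw [Matrix.det_zero]
        exact IsSquare.zero
    · have hex : ∃ i j, A i j ≠ 0 := by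
        by_contra hcon
        push Not at hcon
        apply hA0
        ext i j
        exact hcon i j
      obtain ⟨i, j, hij⟩ := hex
      have hne : i ≠ j := by
        rintro rfl
        exact hij (hdiag i)
      let p : n → Prop := fun x => x = i ∨ x = j
      let e : {x // p x} ⊕ {x // ¬ p x} ≃ n := Equiv.sumCompl p
      set B : Matrix ({x // p x} ⊕ {x // ¬ p x}) ({x // p x} ⊕ {x // ¬ p x}) k :=
        A.submatrix e e with hB
      have hdet : B.det = A.det := by
        rw [hB, Matrix.det_submatrix_equiv_self]
      have hBt : Bᵀ = -B := by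
        rw [hB, Matrix.transpose_submatrix, hA]
        rfl
      have hblocks : B = Matrix.fromBlocks B.toBlocks₁₁ B.toBlocks₁₂ B.toBlocks₂₁ B.toBlocks₂₂ :=
        (Matrix.fromBlocks_toBlocks B).symm
      have h11 : B.toBlocks₁₁ᵀ = - B.toBlocks₁₁ := by
        ext x y
        exact congrFun (congrFun hBt (Sum.inl x)) (Sum.inl y)
      have h12 : B.toBlocks₁₂ᵀ = - B.toBlocks₂₁ := by
        ext x y
        exact congrFun (congrFun hBt (Sum.inr x)) (Sum.inl y)
      have h21 : B.toBlocks₂₁ᵀ = - B.toBlocks₁₂ := by
        ext x y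
        exact congrFun (congrFun hBt (Sum.inl x)) (Sum.inr y)
      have h22 : B.toBlocks₂₂ᵀ = - B.toBlocks₂₂ := by
        ext x y
        exact congrFun (congrFun hBt (Sum.inr x)) (Sum.inr y)
      -- the small block
      let f : Fin 2 → {x // p x} := ![⟨i, Or.inl rfl⟩, ⟨j, Or.inr rfl⟩]
      have hf : Function.Bijective f := by
        constructor
        · intro a b hab
          fin_cases a <;> fin_cases b
          · rfl
          · exact absurd (congrArg Subtype.val hab) hne
          · exact absurd (congrArg Subtype.val hab).symm hne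
          · rfl
        · rintro ⟨x, hx⟩
          rcases hx with rfl | rfl
          · exact ⟨0, rfl⟩
          · exact ⟨1, rfl⟩
      let ef : Fin 2 ≃ {x // p x} := Equiv.ofBijective f hf
      have hd11 : B.toBlocks₁₁.det = A i j * A i j := by
        rw [← Matrix.det_submatrix_equiv_self ef B.toBlocks₁₁, Matrix.det_fin_two]
        have e00 : (B.toBlocks₁₁.submatrix ef ef) 0 0 = A i i := rfl
        have e01 : (B.toBlocks₁₁.submatrix ef ef) 0 1 = A i j := rfl
        have e10 : (B.toBlocks₁₁.submatrix ef ef) 1 0 = A j i := rfl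
        have e11 : (B.toBlocks₁₁.submatrix ef ef) 1 1 = A j j := rfl
        rw [e00, e01, e10, e11, hdiag, hdiag, hanti i j]
        ring
      have hu : IsUnit B.toBlocks₁₁.det := by
        rw [hd11]
        exact (mul_ne_zero hij hij).isUnit
      have : Invertible B.toBlocks₁₁ := Matrix.invertibleOfIsUnitDet _ hu
      have hdetB : B.det = B.toBlocks₁₁.det *
          (B.toBlocks₂₂ - B.toBlocks₂₁ * ⅟B.toBlocks₁₁ * B.toBlocks₁₂).det := by
        rw [← Matrix.det_fromBlocks₁₁]
        exact congrArg Matrix.det hblocks
      have hS : (B.toBlocks₂₂ - B.toBlocks₂₁ * ⅟B.toBlocks₁₁ * B.toBlocks₁₂)ᵀ =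
          -(B.toBlocks₂₂ - B.toBlocks₂₁ * ⅟B.toBlocks₁₁ * B.toBlocks₁₂) := by
        have hinv : (⅟B.toBlocks₁₁)ᵀ = - ⅟B.toBlocks₁₁ := by
          have e1 : (- B.toBlocks₁₁) * (⅟B.toBlocks₁₁)ᵀ = 1 := by
            rw [← h11, ← Matrix.transpose_mul, invOf_mul_self, Matrix.transpose_one]
          have e2 : B.toBlocks₁₁ * (- (⅟B.toBlocks₁₁)ᵀ) = 1 := by
            rw [Matrix.mul_neg, ← Matrix.neg_mul]
            exact e1
          rw [← neg_eq_iff_eq_neg]
          exact (invOf_eq_right_inv e2).symm
        rw [Matrix.transpose_sub, Matrix.transpose_mul, Matrix.transpose_mul, hinv, h12, h21, h22]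
        simp only [Matrix.neg_mul, Matrix.mul_neg, neg_neg, Matrix.mul_assoc]
        abel
      have hcard : Fintype.card {x // ¬ p x} < m := by
        rw [← hm]
        exact Fintype.card_subtype_lt (x := i) (by
          intro h
          exact h (Or.inl rfl))
      rw [← hdet, hdetB, hd11]
      exact IsSquare.mul ⟨A i j, rfl⟩ (ih _ hcard _ rfl hS)

end Pool.Agent.VL
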