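import Pool.Agent.Lib_helper74.VL.LA1

/-!
# Discriminants of isometries, part 2: Gram matrices
-/

set_option autoImplicit false

namespace Pool.Agent.VL

open Matrix Module

variable {k : Type} [Field k] {V : Type} [AddCommGroup V] [Module k V]

/-- The Gram matrix of a family of vectors. -/
def gram (b : V →ₗ[k] V →ₗ[k] k) {ι : Type} (x : ι → V) : Matrix ι ι k :=
  Matrix.of fun i j => b (x i) (x j)

theorem gram_apply (b : V →ₗ[k] V →ₗ[k] k) {ι : Type} (x : ι → V) (i j : ι) :
    gram b x i j = b (x i) (x j) := rfl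

/-- Linear combinations. -/
theorem gram_comb (b : V →ₗ[k] V →ₗ[k] k) {ι ι' : Type} [Fintype ι] (x : ι → V)
    (M : Matrix ι ι' k) : gram b (fun j => ∑ i, M i j • x i) = Mᵀ * gram b x * M := by
  ext i j
  rw [gram_apply]
  simp only [map_sum, map_smul, LinearMap.sum_apply, LinearMap.smul_apply, smul_eq_mul,
    Matrix.mul_apply, Matrix.transpose_apply, gram_apply, Finset.sum_mul, Finset.mul_sum]
  apply Finset.sum_congr rfl
  intro a _
  apply Finset.sum_congr rfl
  intro c _
  ring

theorem gram_basis (b : V →ₗ[k] V →ₗ[k] k) {ι : Type} [Fintype ι] [DecidableEq ι]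
    (β : Basis ι k V) (x : ι → V) :
    (gram b x).det = (gram b β).det * ((β.toMatrix x).det * (β.toMatrix x).det) := by
  have h1 : x = fun j => ∑ i, β.toMatrix x i j • β i := by
    funext j
    exact (β.sum_toMatrix_smul_self x j).symm
  have h2 : gram b x = (β.toMatrix x)ᵀ * gram b β * β.toMatrix x := by
    conv_lhs => rw [h1]
    exact gram_comb b β _
  rw [h2, Matrix.det_mul, Matrix.det_mul, Matrix.det_transpose]
  ring

theorem gram_reindex (b : V →ₗ[k] V →ₗ[k] k) {ι ι' : Type} [Fintype ι] [DecidableEq ι]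
    [Fintype ι'] [DecidableEq ι'] (e : ι' ≃ ι) (x : ι → V) :
    (gram b (fun i => x (e i))).det = (gram b x).det := by
  have h : gram b (fun i => x (e i)) = (gram b x).submatrix e e := rfl
  rw [h, Matrix.det_submatrix_equiv_self]

/-- The discriminant does not depend on the basis, up to squares. -/
theorem gram_sq (b : V →ₗ[k] V →ₗ[k] k) {ι ι' : Type} [Fintype ι] [DecidableEq ι]
    [Fintype ι'] [DecidableEq ι'] (β : Basis ι k V) (β' : Basis ι' k V) :
    IsSquare ((gram b β).det * (gram b β').det) := by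
  let e : ι ≃ ι' := β.indexEquiv β'
  rw [← gram_reindex b e β', gram_basis b β (fun i => β' (e i))]
  refine ⟨(gram b β).det * (β.toMatrix fun i => β' (e i)).det, ?_⟩
  ring

/-- The discriminant of an isometry. -/
theorem iso_matrix (h2 : (2 : k) ≠ 0) {n : Type} [Fintype n] [DecidableEq n] (J A : Matrix n n k)
    (hJ : Jᵀ = J) (hA : Aᵀ * J * A = J) (hJ0 : J.det ≠ 0) (hm : A.charpoly.eval (-1) ≠ 0) :
    IsSquare (J.det * (A.charpoly.eval 1 * A.charpoly.eval (-1))) := by
  have e1 : A.charpoly.eval 1 = (1 - A).det := by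
    rw [Matrix.eval_charpoly]
    congr 2
  have e2 : A.charpoly.eval (-1) = (-(1 + A)).det := by
    rw [Matrix.eval_charpoly]
    congr 1
    rw [neg_add, ← sub_eq_add_neg, map_neg, map_one]
  have hdA : (1 + A).det ≠ 0 := by
    intro h
    apply hm
    rw [e2, Matrix.det_neg, h, mul_zero]
  have h3 : (1 + A)ᵀ * J = Aᵀ * J * (1 + A) := by
    rw [Matrix.mul_add, hA, Matrix.transpose_add, Matrix.transpose_one, Matrix.add_mul,
      Matrix.one_mul, Matrix.mul_one, add_comm]
  have hdet1 : A.det = 1 := by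
    have h4 := congrArg Matrix.det h3
    rw [Matrix.det_mul, Matrix.det_mul, Matrix.det_mul, Matrix.det_transpose,
      Matrix.det_transpose] at h4
    have h5 : (A.det - 1) * ((1 + A).det * J.det) = 0 := by linear_combination -h4
    have h6 := (mul_eq_zero.mp h5).resolve_right (mul_ne_zero hdA hJ0)
    exact sub_eq_zero.mp h6
  have hu : IsUnit A.det := by
    rw [hdet1]
    exact isUnit_one
  have hAi : A * A⁻¹ = 1 := Matrix.mul_nonsing_inv A hu
  have hAi' : A⁻¹ * A = 1 := Matrix.nonsing_inv_mul A hu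
  have h7 : Aᵀ * J = J * A⁻¹ := by
    calc Aᵀ * J = Aᵀ * J * (A * A⁻¹) := by rw [hAi, Matrix.mul_one]
      _ = J * A⁻¹ := by rw [← Matrix.mul_assoc, hA]
  have h8 : (J * (A - A⁻¹))ᵀ = -(J * (A - A⁻¹)) := by
    have h9 : (A⁻¹)ᵀ * J = J * A := by
      have := congrArg Matrix.transpose h7
      rw [Matrix.transpose_mul, Matrix.transpose_mul, Matrix.transpose_transpose, hJ] at this
      exact this.symm
    rw [Matrix.transpose_mul, hJ, Matrix.transpose_sub, Matrix.sub_mul, h7, h9, Matrix.mul_sub]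
    abel
  have h10 := skew_sq h2 _ (J * (A - A⁻¹)) rfl h8
  have h11 : (A - A⁻¹).det = A.charpoly.eval 1 * A.charpoly.eval (-1) := by
    have h12 : (A - A⁻¹) * A = (1 - A) * (-(1 + A)) := by
      rw [Matrix.sub_mul, hAi']
      noncomm_ring
    have h13 := congrArg Matrix.det h12
    rw [Matrix.det_mul, Matrix.det_mul, hdet1, mul_one] at h13
    rw [h13, e1, e2]
  rw [Matrix.det_mul, h11] at h10
  exact h10

/-- The discriminant of an isometry, for linear maps. -/
theorem iso_linear (h2 : (2 : k) ≠ 0) [FiniteDimensional k V] (b : V →ₗ[k] V →ₗ[k] k)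
    (hb : ∀ x y, b x y = b y x) (g : V →ₗ[k] V) (hg : ∀ x y, b (g x) (g y) = b x y)
    {ι : Type} [Fintype ι] [DecidableEq ι] (β : Basis ι k V) (hβ : (gram b β).det ≠ 0)
    (hm : g.charpoly.eval (-1) ≠ 0) :
    IsSquare ((gram b β).det * (g.charpoly.eval 1 * g.charpoly.eval (-1))) := by
  rw [← LinearMap.charpoly_toMatrix g β] at hm ⊢
  apply iso_matrix h2
  · ext i j
    rw [Matrix.transpose_apply, gram_apply, gram_apply, hb]
  · have h1 : (fun j => g (β j)) = fun j => ∑ i, (LinearMap.toMatrix β β g) i j • β i := by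
      funext j
      rw [← β.sum_repr (g (β j))]
      apply Finset.sum_congr rfl
      intro i _
      rw [LinearMap.toMatrix_apply]
    rw [← gram_comb b β, ← h1]
    ext i j
    rw [gram_apply, gram_apply, hg]
  · exact hβ
  · exact hm

/-- Orthogonal decompositions. -/
theorem gram_split [FiniteDimensional k V] (b : V →ₗ[k] V →ₗ[k] k) (hb : ∀ x y, b x y = b y x)
    (N F : Submodule k V) (hNF : IsCompl N F) (horth : ∀ x ∈ N, ∀ y ∈ F, b x y = 0)
    {ι ι' ι'' : Type} [Fintype ι] [DecidableEq ι] [Fintype ι'] [DecidableEq ι']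
    [Fintype ι''] [DecidableEq ι''] (βN : Basis ι k N) (βF : Basis ι' k F) (β : Basis ι'' k V) :
    IsSquare ((gram b β).det *
      ((gram b fun i => (βN i : V)).det * (gram b fun i => (βF i : V)).det)) ∧
    ((gram b β).det ≠ 0 → (gram b fun i => (βN i : V)).det ≠ 0 ∧
      (gram b fun i => (βF i : V)).det ≠ 0) := by
  let β0 : Basis (ι ⊕ ι') k V := (βN.prod βF).map (Submodule.prodEquivOfIsCompl N F hNF)
  have hl : ∀ i, β0 (Sum.inl i) = βN i := by
    intro i
    simp [β0]
  have hr : ∀ i, β0 (Sum.inr i) = βF i := by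
    intro i
    simp [β0]
  have h1 : gram b β0 = Matrix.fromBlocks (gram b fun i => (βN i : V)) 0 0
      (gram b fun i => (βF i : V)) := by
    ext i j
    rcases i with i | i <;> rcases j with j | j
    · rw [gram_apply, hl, hl]
      rfl
    · rw [gram_apply, hl, hr]
      exact horth _ (βN i).2 _ (βF j).2
    · rw [gram_apply, hr, hl, hb]
      exact horth _ (βN j).2 _ (βF i).2
    · rw [gram_apply, hr, hr]
      rfl
  have h2 := gram_sq b β β0
  rw [h1, Matrix.det_fromBlocks_zero₂₁] at h2
  refine ⟨h2, ?_⟩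
  intro hβ
  let e : ι'' ≃ ι ⊕ ι' := β.indexEquiv β0
  have h3 := gram_basis b β (fun i => β0 (e i))
  have h4 : (β.toMatrix fun i => β0 (e i)).det ≠ 0 := by
    have h5 : β.toMatrix (β0.reindex e.symm) * (β0.reindex e.symm).toMatrix β = 1 :=
      Basis.toMatrix_mul_toMatrix_flip _ _
    have h6 : (fun i => β0 (e i)) = β0.reindex e.symm := by
      funext i
      simp
    rw [h6]
    intro h7
    have h8 := congrArg Matrix.det h5
    rw [Matrix.det_mul, h7, zero_mul, Matrix.det_one] at h8
    exact zero_ne_one h8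
  rw [gram_reindex, h1, Matrix.det_fromBlocks_zero₂₁] at h3
  have h5 : (gram b fun i => (βN i : V)).det * (gram b fun i => (βF i : V)).det ≠ 0 := by
    rw [h3]
    exact mul_ne_zero hβ (mul_ne_zero h4 h4)
  exact ⟨left_ne_zero_of_mul h5, right_ne_zero_of_mul h5⟩

/-- The characteristic polynomial on a decomposition. -/
theorem charpoly_split [FiniteDimensional k V] (g : V →ₗ[k] V) (N F : Submodule k V)
    (hNF : IsCompl N F) (hN : ∀ x ∈ N, g x ∈ N) (hF : ∀ x ∈ F, g x ∈ F) :
    g.charpoly = (g.restrict hN).charpoly * (g.restrict hF).charpoly := by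
  have h1 := LinearMap.charpoly_prodMap (g.restrict hN) (g.restrict hF)
  have h2 : (Submodule.prodEquivOfIsCompl N F hNF).conj ((g.restrict hN).prodMap (g.restrict hF)) =
      g := by
    rw [LinearEquiv.conj_apply]
    apply LinearMap.ext
    intro x
    obtain ⟨y, rfl⟩ := (Submodule.prodEquivOfIsCompl N F hNF).surjective x
    simp
  rw [← h1, ← LinearEquiv.charpoly_conj (Submodule.prodEquivOfIsCompl N F hNF)
    ((g.restrict hN).prodMap (g.restrict hF))]
  exact congrArg LinearMap.charpoly h2.symm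

end Pool.Agent.VL
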