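import Pool.Agent.Lib_helper74.VL.LA2

/-!
# Discriminants of isometries, part 3: the part without roots of unity
-/

set_option autoImplicit false

namespace Pool.Agent.VL

open Matrix Module Polynomial

variable {k : Type} [Field k] {V : Type} [AddCommGroup V] [Module k V] [FiniteDimensional k V]

/-- Adjoint of `u - 1` for an isometry `u`. -/
theorem orth_aux (b : V →ₗ[k] V →ₗ[k] k) (u : V ≃ₗ[k] V) (hu : ∀ x y, b (u x) (u y) = b x y) :
    ∀ (M : ℕ) (x y : V), (((u : V →ₗ[k] V) - 1) ^ M) y = 0 →
      b ((((u : V →ₗ[k] V) - 1) ^ M) x) y = 0 := by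
  intro M
  induction M with
  | zero =>
    intro x y hy
    rw [pow_zero, Module.End.one_apply] at hy
    rw [hy, map_zero]
  | succ M ih =>
    intro x y hy
    set f : V →ₗ[k] V := (u : V →ₗ[k] V) - 1 with hf
    have hfx : ∀ z, f z = u z - z := fun z => rfl
    have h1 : ∀ z t, b (f z) t = - b z (u.symm (f t)) := by
      intro z t
      have h2 : u.symm (f t) = t - u.symm t := by
        rw [hfx, map_sub, LinearEquiv.symm_apply_apply]
      have h3 : b (u z) t = b z (u.symm t) := by
        rw [← hu z (u.symm t), LinearEquiv.apply_symm_apply]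
      rw [h2, hfx, map_sub, map_sub, LinearMap.sub_apply, h3]
      ring
    have hcomm : ∀ z, f (u.symm z) = u.symm (f z) := by
      intro z
      rw [hfx, hfx, map_sub, LinearEquiv.apply_symm_apply, LinearEquiv.symm_apply_apply]
    have hcommM : ∀ (N : ℕ) (z : V), (f ^ N) (u.symm z) = u.symm ((f ^ N) z) := by
      intro N
      induction N with
      | zero => intro z; rfl
      | succ N ihN =>
        intro z
        rw [pow_succ', Module.End.mul_apply, Module.End.mul_apply, ihN, hcomm]
    have h4 : (f ^ M) (u.symm (f y)) = 0 := by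
      rw [hcommM]
      have h5 : (f ^ M) (f y) = 0 := by
        rw [← Module.End.mul_apply, ← pow_succ]
        exact hy
      rw [h5, map_zero]
    have h6 : (f ^ (M + 1)) x = f ((f ^ M) x) := by
      rw [pow_succ', Module.End.mul_apply]
    rw [h6, h1, ih x _ h4, neg_zero]

/-- If `R(A)` is invertible, then `R` is prime to the characteristic polynomial of `A`. -/
theorem coprime_of_inj (f : V →ₗ[k] V) (R : k[X]) (h : Function.Injective (aeval f R)) :
    IsCoprime f.charpoly R := by
  classical
  let β := Module.finBasis k V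
  rw [← LinearMap.charpoly_toMatrix f β]
  set A := LinearMap.toMatrix β β f with hA
  have hdet : (aeval A R).det ≠ 0 := by
    have h1 : aeval A R = LinearMap.toMatrix β β (aeval f R) := by
      have h2 := Polynomial.aeval_algHom_apply (LinearMap.toMatrixAlgEquiv β).toAlgHom f R
      exact h2
    rw [h1, LinearMap.det_toMatrix]
    have h3 : IsUnit (aeval f R) := (LinearMap.isUnit_iff_ker_eq_bot _).mpr
      (LinearMap.ker_eq_bot.mpr h)
    exact (h3.map LinearMap.det).ne_zero
  refine (Polynomial.isCoprime_iff_aeval_ne_zero_of_isAlgClosed k (AlgebraicClosure k) _ _).mpr ?_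
  intro a
  by_contra hcon
  push Not at hcon
  obtain ⟨h1, h2⟩ := hcon
  let L := AlgebraicClosure k
  let A' := A.map (algebraMap k L)
  have h3 : A'.charpoly.IsRoot a := by
    rw [Matrix.charpoly_map, Polynomial.IsRoot.def, Polynomial.eval_map_algebraMap]
    exact h1
  have h4 : Module.End.HasEigenvalue (Matrix.toLin' A') a := by
    rw [Module.End.hasEigenvalue_iff_isRoot_charpoly, Matrix.charpoly_toLin']
    exact h3
  obtain ⟨x, hx⟩ := h4.exists_hasEigenvector
  have h5 := Module.End.aeval_apply_of_hasEigenvector (p := R.map (algebraMap k L)) hx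
  rw [Polynomial.eval_map_algebraMap, h2, zero_smul] at h5
  have h6 : aeval (Matrix.toLin' A') (R.map (algebraMap k L)) =
      Matrix.toLin' ((aeval A R).map (algebraMap k L)) := by
    have h7 := Polynomial.aeval_algHom_apply (Matrix.toLinAlgEquiv' (R := L)).toAlgHom A'
      (R.map (algebraMap k L))
    have h8 : aeval A' (R.map (algebraMap k L)) = (aeval A R).map (algebraMap k L) := by
      rw [Polynomial.aeval_map_algebraMap]
      have h9 := Polynomial.aeval_algHom_apply
        ((Algebra.ofId k L).mapMatrix (m := Fin (Module.finrank k V))) A R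
      exact h9
    rw [h8] at h7
    exact h7
  rw [h6, Matrix.toLin'_apply] at h5
  have h7 : ((aeval A R).map (algebraMap k L)).det ≠ 0 := by
    have h8 : ((aeval A R).map (algebraMap k L)).det = algebraMap k L (aeval A R).det :=
      (RingHom.map_det (algebraMap k L) (aeval A R)).symm
    rw [h8]
    exact (_root_.map_ne_zero _).mpr hdet
  exact hx.2 (Matrix.eq_zero_of_mulVec_eq_zero h7 h5)

/-- On a subspace on which `(g ^ n - 1) ^ M` vanishes, the characteristic polynomial is prime to
`R`, if `R` is prime to `X ^ n - 1`. -/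
theorem coprime_aux (G : V →ₗ[k] V) (n M : ℕ) (N : Submodule k V) (hGN : ∀ x ∈ N, G x ∈ N)
    (hN : ∀ x ∈ N, ((G ^ n - 1) ^ M) x = 0) (R : k[X]) (hcop : IsCoprime R (X ^ n - 1)) :
    IsCoprime (G.restrict hGN).charpoly R := by
  apply coprime_of_inj
  rw [← LinearMap.ker_eq_bot, LinearMap.ker_eq_bot']
  intro x hx
  have hcop2 : IsCoprime R ((X ^ n - 1) ^ M) := hcop.pow_right
  obtain ⟨a, c, hac⟩ := hcop2
  have h3 : aeval (G.restrict hGN) ((X ^ n - 1 : k[X]) ^ M) = 0 := by
    rw [map_pow, map_sub, map_pow, aeval_X, map_one]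
    apply LinearMap.ext
    intro z
    apply Subtype.ext
    have h4 : ∀ (j : ℕ) (z : N), (((G.restrict hGN) ^ j) z : V) = (G ^ j) z := by
      intro j
      induction j with
      | zero => intro z; rfl
      | succ j ih =>
        intro z
        rw [pow_succ', Module.End.mul_apply, LinearMap.coe_restrict_apply, ih, pow_succ',
          Module.End.mul_apply]
    have h5 : ∀ (z : N), ((((G.restrict hGN) ^ n - 1) : N →ₗ[k] N) z : V) = (G ^ n - 1) z := by
      intro z
      rw [LinearMap.sub_apply, Submodule.coe_sub, h4]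
      rfl
    have h6 : ∀ (j : ℕ) (z : N), ((((G.restrict hGN) ^ n - 1) ^ j : N →ₗ[k] N) z : V) =
        ((G ^ n - 1) ^ j) z := by
      intro j
      induction j with
      | zero => intro z; rfl
      | succ j ih =>
        intro z
        rw [pow_succ', Module.End.mul_apply, h5, ih, pow_succ', Module.End.mul_apply]
    rw [h6]
    exact hN z z.2
  have h4 := congrArg (aeval (G.restrict hGN)) hac
  rw [map_add, map_mul, map_mul, h3, mul_zero, add_zero, map_one] at h4
  have h5 := congrArg (fun φ : N →ₗ[k] N => φ x) h4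
  simp only [Module.End.mul_apply, Module.End.one_apply] at h5
  rw [hx, map_zero] at h5
  exact h5.symm

/-- The dimension of the generalized eigenspace of `g ^ n` for the eigenvalue `1`. -/
theorem dim_le (G : V →ₗ[k] V) (n M : ℕ) (N F : Submodule k V) (hNF : IsCompl N F)
    (hGN : ∀ x ∈ N, G x ∈ N) (hGF : ∀ x ∈ F, G x ∈ F)
    (hN : ∀ x ∈ N, ((G ^ n - 1) ^ M) x = 0) (C R : k[X]) (hC : C.Monic)
    (hCR : G.charpoly = C * R) (hcop : IsCoprime R (X ^ n - 1)) :
    finrank k N ≤ C.natDegree := by
  have hcop1 := coprime_aux G n M N hGN hN R hcop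
  have hsplit := charpoly_split G N F hNF hGN hGF
  have h1 : (G.restrict hGN).charpoly ∣ C * R := by
    rw [← hCR, hsplit]
    exact Dvd.intro _ rfl
  have h2 := hcop1.dvd_of_dvd_mul_right h1
  have h3 := Polynomial.natDegree_le_of_dvd h2 hC.ne_zero
  rw [LinearMap.charpoly_natDegree] at h3
  exact h3

/-- The discriminant of the generalized eigenspace `N` of `u = g ^ n` for the eigenvalue `1`, if its
dimension is at least the degree of a factor `C` of the characteristic polynomial with a cofactor
`R` that is prime to `X ^ n - 1`. -/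
theorem disc_main (h2 : (2 : k) ≠ 0) (b : V →ₗ[k] V →ₗ[k] k) (hb : ∀ x y, b x y = b y x)
    (g : V ≃ₗ[k] V) (hg : ∀ x y, b (g x) (g y) = b x y) {ι : Type} [Fintype ι] [DecidableEq ι]
    (β : Basis ι k V) (hβ : (gram b β).det ≠ 0) (C R : k[X]) (hC : C.Monic) (hR : R.Monic)
    (hCR : (g : V →ₗ[k] V).charpoly = C * R) (u : V ≃ₗ[k] V) (n : ℕ)
    (hu : (u : V →ₗ[k] V) = (g : V →ₗ[k] V) ^ n)
    (hcop : IsCoprime R (X ^ n - 1)) (hm : R.eval (-1) ≠ 0) (M : ℕ) (N F : Submodule k V)
    (hN : N = LinearMap.ker (((u : V →ₗ[k] V) - 1) ^ M))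
    (hF : F = LinearMap.range (((u : V →ₗ[k] V) - 1) ^ M)) (hM : IsCompl N F)
    {κ : Type} [Fintype κ] [DecidableEq κ] (ν : Basis κ k N)
    (hcard : C.natDegree ≤ Fintype.card κ) :
    (gram b fun i => (ν i : V)).det ≠ 0 ∧
    IsSquare ((gram b β).det * (gram b fun i => (ν i : V)).det * (R.eval 1 * R.eval (-1))) := by
  classical
  set G : V →ₗ[k] V := (g : V →ₗ[k] V) with hG
  set f : V →ₗ[k] V := (u : V →ₗ[k] V) - 1 with hf
  have hui : ∀ x y, b (u x) (u y) = b x y := by
    have h1 : ∀ (j : ℕ) (x y : V), b ((G ^ j) x) ((G ^ j) y) = b x y := by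
      intro j
      induction j with
      | zero => intro x y; rfl
      | succ j ih =>
        intro x y
        rw [pow_succ', Module.End.mul_apply, Module.End.mul_apply]
        change b (g ((G ^ j) x)) (g ((G ^ j) y)) = b x y
        rw [hg, ih]
    intro x y
    change b ((u : V →ₗ[k] V) x) ((u : V →ₗ[k] V) y) = b x y
    rw [hu, h1]
  have hcomm : Commute G (f ^ M) := by
    apply Commute.pow_right
    rw [hf, hu]
    exact (Commute.pow_right (Commute.refl G) n).sub_right (Commute.one_right G)
  have hGN : ∀ x ∈ N, G x ∈ N := by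
    intro x hx
    rw [hN, LinearMap.mem_ker] at hx ⊢
    rw [← Module.End.mul_apply, ← hcomm.eq, Module.End.mul_apply, hx, map_zero]
  have hGF : ∀ x ∈ F, G x ∈ F := by
    intro x hx
    rw [hF] at hx ⊢
    obtain ⟨y, rfl⟩ := hx
    refine ⟨G y, ?_⟩
    rw [← Module.End.mul_apply, ← hcomm.eq, Module.End.mul_apply]
  have horth : ∀ x ∈ N, ∀ y ∈ F, b x y = 0 := by
    intro x hx y hy
    rw [hF] at hy
    rw [hN] at hx
    obtain ⟨z, rfl⟩ := hy
    rw [hb]
    exact orth_aux b u hui M z x hx
  have hsplit := charpoly_split G N F hM hGN hGF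
  set PN := (G.restrict hGN).charpoly with hPN
  set PF := (G.restrict hGF).charpoly with hPF
  -- `R` is prime to `PN`
  have hcop1 : IsCoprime PN R := by
    apply coprime_aux G n M N hGN _ R hcop
    intro x hx
    rw [hN, LinearMap.mem_ker, hf, hu] at hx
    exact hx
  have hR1 : R ∣ PF := by
    have h3 : R ∣ PN * PF := by
      rw [← hsplit, hCR]
      exact Dvd.intro_left C rfl
    exact hcop1.symm.dvd_of_dvd_mul_left h3
  have hPNm : PN.Monic := LinearMap.charpoly_monic _
  have hPFm : PF.Monic := LinearMap.charpoly_monic _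
  have hPNd : PN.natDegree = Fintype.card κ := by
    rw [hPN, LinearMap.charpoly_natDegree]
    exact Module.finrank_eq_card_basis ν
  have hdeg : C.natDegree + R.natDegree = PN.natDegree + PF.natDegree := by
    rw [← hC.natDegree_mul hR, ← hPNm.natDegree_mul hPFm, ← hCR, hsplit]
  have hPFR : PF = R := by
    have h3 : PF.natDegree ≤ R.natDegree := by omega
    exact (Polynomial.eq_of_monic_of_dvd_of_natDegree_le hR hPFm hR1 h3)
  -- the discriminants
  let γ := Module.finBasis k F
  obtain ⟨hs1, hs2⟩ := gram_split b hb N F hM horth ν γ β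
  obtain ⟨hdN, hdF⟩ := hs2 hβ
  let bF : F →ₗ[k] F →ₗ[k] k := b.domRestrict₁₂ F F
  have hbF : gram bF γ = gram b fun i => (γ i : V) := rfl
  have hs3 : IsSquare ((gram bF γ).det * ((G.restrict hGF).charpoly.eval 1 *
      (G.restrict hGF).charpoly.eval (-1))) := by
    apply iso_linear h2 bF
    · intro x y
      exact hb x y
    · intro x y
      exact hg x y
    · rw [hbF]
      exact hdF
    · rw [← hPF, hPFR]
      exact hm
  rw [← hPF, hPFR, hbF] at hs3
  refine ⟨hdN, ?_⟩
  obtain ⟨x, hx⟩ := hs1
  obtain ⟨y, hy⟩ := hs3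
  refine ⟨x * y / (gram b fun i => (γ i : V)).det, ?_⟩
  field_simp
  linear_combination ((gram b fun i => (γ i : V)).det * (eval 1 R * eval (-1) R)) * hx + x * x * hy

end Pool.Agent.VL
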