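import Pool.Agent.Lib_helper74.VL.LA3

/-!
# Discriminants of isometries, part 4: two elements and a subquotient
-/

set_option autoImplicit false

namespace Pool.Agent.VL

open Matrix Module Polynomial

section

variable {k : Type} [Field k] {V : Type} [AddCommGroup V] [Module k V] [FiniteDimensional k V]

theorem fk (f : V →ₗ[k] V) (W : Submodule k V) :
    finrank k (W.map f) + finrank k (W ⊓ LinearMap.ker f : Submodule k V) = finrank k W := by
  have h1 := LinearMap.finrank_range_add_finrank_ker (f.domRestrict W)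
  rw [LinearMap.range_domRestrict, LinearMap.ker_domRestrict] at h1
  have h2 : finrank k ((LinearMap.ker f).comap W.subtype) =
      finrank k (W ⊓ LinearMap.ker f : Submodule k V) := by
    rw [← Submodule.map_comap_subtype, Submodule.finrank_map_subtype_eq]
  rw [h2] at h1
  exact h1

/-- The subquotient `W₂ / W₁`. -/
theorem subq (f : V →ₗ[k] V) (W₁ W₂ : Submodule k V) (h12 : W₁ ≤ W₂)
    (hf : ∀ x ∈ W₂, f x ∈ W₁) (r : ℕ) (hr : finrank k W₁ + r ≤ finrank k W₂) (M : ℕ)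
    (hM : 2 ≤ M) (N : Submodule k V) (hN : N = LinearMap.ker (f ^ M)) (hNr : finrank k N ≤ r) :
    N ≤ W₂ ∧ N ⊓ W₁ = ⊥ ∧ N ⊔ W₁ = W₂ ∧ finrank k N = r ∧
      ∀ x ∈ W₁, ∃ y, (f ^ M) y = x := by
  obtain ⟨K, rfl⟩ : ∃ K, M = K + 1 := ⟨M - 1, by omega⟩
  have h1 := fk (f ^ (K + 1)) W₂
  have h2 := fk (f ^ K) W₁
  have h3 : W₂.map (f ^ (K + 1)) ≤ W₁.map (f ^ K) := by
    rintro x ⟨y, hy, rfl⟩
    refine ⟨f y, hf y hy, ?_⟩
    rw [pow_succ, Module.End.mul_apply]
  have h4 := Submodule.finrank_mono h3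
  have h5 : finrank k (W₂ ⊓ LinearMap.ker (f ^ (K + 1)) : Submodule k V) ≤ finrank k N := by
    rw [hN]
    exact Submodule.finrank_mono inf_le_right
  have h6 : finrank k (W₁ ⊓ LinearMap.ker (f ^ K) : Submodule k V) = 0 := by omega
  have h7 : W₁ ⊓ LinearMap.ker (f ^ K) = ⊥ := Submodule.finrank_eq_zero.mp h6
  have hNW : N ≤ W₂ := by
    have h8 : W₂ ⊓ LinearMap.ker (f ^ (K + 1)) = N := by
      apply Submodule.eq_of_le_of_finrank_le
      · rw [hN]
        exact inf_le_right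
      · omega
    rw [← h8]
    exact inf_le_left
  have hNr' : finrank k N = r := by omega
  have hbot : N ⊓ W₁ = ⊥ := by
    rw [eq_bot_iff]
    intro x hx
    rw [Submodule.mem_inf, hN, LinearMap.mem_ker] at hx
    obtain ⟨hx1, hx2⟩ := hx
    have h8 : f x = 0 := by
      have h9 : f x ∈ W₁ ⊓ LinearMap.ker (f ^ K) := by
        refine ⟨hf x (h12 hx2), ?_⟩
        change (f ^ K) (f x) = 0
        rw [← Module.End.mul_apply, ← pow_succ]
        exact hx1
      rw [h7] at h9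
      exact h9
    have h9 : x ∈ W₁ ⊓ LinearMap.ker (f ^ K) := by
      refine ⟨hx2, ?_⟩
      obtain ⟨L, rfl⟩ : ∃ L, K = L + 1 := ⟨K - 1, by omega⟩
      change (f ^ (L + 1)) x = 0
      rw [pow_succ, Module.End.mul_apply, h8, map_zero]
    rw [h7] at h9
    exact h9
  have hW2 : finrank k W₂ = finrank k W₁ + r := by omega
  refine ⟨hNW, hbot, ?_, hNr', ?_⟩
  · apply Submodule.eq_of_le_of_finrank_le (sup_le hNW h12)
    have h8 := Submodule.finrank_sup_add_finrank_inf_eq N W₁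
    rw [hbot, finrank_bot] at h8
    omega
  · have h8 := fk (f ^ (K + 1)) W₁
    have h9 : W₁ ⊓ LinearMap.ker (f ^ (K + 1)) = ⊥ := by
      rw [inf_comm, ← hN]
      exact hbot
    rw [h9, finrank_bot, add_zero] at h8
    have hstab : ∀ j : ℕ, ∀ x ∈ W₁, (f ^ j) x ∈ W₁ := by
      intro j
      induction j with
      | zero => intro x hx; exact hx
      | succ j ih =>
        intro x hx
        rw [pow_succ', Module.End.mul_apply]
        exact hf _ (h12 (ih x hx))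
    have h10 : W₁.map (f ^ (K + 1)) = W₁ := by
      apply Submodule.eq_of_le_of_finrank_le
      · rintro x ⟨y, hy, rfl⟩
        exact hstab _ y hy
      · exact h8.ge
    intro x hx
    rw [← h10] at hx
    obtain ⟨y, _, hy⟩ := hx
    exact ⟨y, hy⟩

/-- Two elements. -/
theorem two_main (h2 : (2 : k) ≠ 0) (b : V →ₗ[k] V →ₗ[k] k) (hb : ∀ x y, b x y = b y x)
    {ι : Type} [Fintype ι] [DecidableEq ι] (β : Basis ι k V) (hβ : (gram b β).det ≠ 0)
    (W₁ W₂ : Submodule k V) (h12 : W₁ ≤ W₂) (r : ℕ) (hr : finrank k W₁ + r ≤ finrank k W₂)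
    (g u g' u' : V ≃ₗ[k] V) (hg : ∀ x y, b (g x) (g y) = b x y)
    (hg' : ∀ x y, b (g' x) (g' y) = b x y) (n n' : ℕ)
    (hu : (u : V →ₗ[k] V) = (g : V →ₗ[k] V) ^ n) (hu' : (u' : V →ₗ[k] V) = (g' : V →ₗ[k] V) ^ n')
    (huW : ∀ x ∈ W₂, u x - x ∈ W₁) (huW' : ∀ x ∈ W₂, u' x - x ∈ W₁)
    (C R C' R' : k[X]) (hC : C.Monic) (hR : R.Monic) (hC' : C'.Monic) (hR' : R'.Monic)
    (hCR : (g : V →ₗ[k] V).charpoly = C * R) (hCR' : (g' : V →ₗ[k] V).charpoly = C' * R')
    (hCr : C.natDegree = r) (hCr' : C'.natDegree = r)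
    (hcop : IsCoprime R (X ^ n - 1)) (hcop' : IsCoprime R' (X ^ n' - 1))
    (hm : R.eval (-1) ≠ 0) (hm' : R'.eval (-1) ≠ 0) :
    IsSquare ((R.eval 1 * R.eval (-1)) * (R'.eval 1 * R'.eval (-1))) := by
  classical
  have hM := (((u : V →ₗ[k] V) - 1 : Module.End k V).eventually_isCompl_ker_pow_range_pow.and
    ((u' : V →ₗ[k] V) - 1 : Module.End k V).eventually_isCompl_ker_pow_range_pow).and
    (Filter.eventually_ge_atTop 2)
  obtain ⟨M, ⟨hM1, hM2⟩, hM3⟩ := hM.exists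
  -- data of one element
  have key : ∀ (g u : V ≃ₗ[k] V) (n : ℕ) (C R : k[X]),
      (u : V →ₗ[k] V) = (g : V →ₗ[k] V) ^ n → (∀ x y, b (g x) (g y) = b x y) →
      (∀ x ∈ W₂, u x - x ∈ W₁) → C.Monic → (g : V →ₗ[k] V).charpoly = C * R → C.natDegree = r →
      IsCoprime R (X ^ n - 1) →
      IsCompl (LinearMap.ker (((u : V →ₗ[k] V) - 1) ^ M))
        (LinearMap.range (((u : V →ₗ[k] V) - 1) ^ M)) →
      ∃ N F : Submodule k V, N = LinearMap.ker (((u : V →ₗ[k] V) - 1) ^ M) ∧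
        F = LinearMap.range (((u : V →ₗ[k] V) - 1) ^ M) ∧ IsCompl N F ∧ N ≤ W₂ ∧
        N ⊓ W₁ = ⊥ ∧ N ⊔ W₁ = W₂ ∧ finrank k N = r ∧ W₁ ≤ F ∧
        ∀ x ∈ W₁, ∀ y ∈ N, b x y = 0 := by
    intro g u n C R hu hg huW hC hCR hCr hcop hM
    have hui : ∀ x y, b (u x) (u y) = b x y := by
      have h1 : ∀ (j : ℕ) (x y : V), b (((g : V →ₗ[k] V) ^ j) x) (((g : V →ₗ[k] V) ^ j) y) =
          b x y := by
        intro j
        induction j with
        | zero => intro x y; rfl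
        | succ j ih =>
          intro x y
          rw [pow_succ', Module.End.mul_apply, Module.End.mul_apply]
          change b (g (((g : V →ₗ[k] V) ^ j) x)) (g (((g : V →ₗ[k] V) ^ j) y)) = b x y
          rw [hg, ih]
      intro x y
      change b ((u : V →ₗ[k] V) x) ((u : V →ₗ[k] V) y) = b x y
      rw [hu, h1]
    have hcomm : Commute (g : V →ₗ[k] V) (((u : V →ₗ[k] V) - 1) ^ M) := by
      apply Commute.pow_right
      rw [hu]
      exact (Commute.pow_right (Commute.refl _) n).sub_right (Commute.one_right _)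
    have hd : finrank k (LinearMap.ker (((u : V →ₗ[k] V) - 1) ^ M)) ≤ r := by
      rw [← hCr]
      apply dim_le (g : V →ₗ[k] V) n M _ _ hM _ _ _ C R hC hCR hcop
      · intro x hx
        rw [LinearMap.mem_ker] at hx ⊢
        rw [← Module.End.mul_apply, ← hcomm.eq, Module.End.mul_apply, hx, map_zero]
      · rintro x ⟨y, rfl⟩
        refine ⟨g y, ?_⟩
        change ((((u : V →ₗ[k] V) - 1) ^ M)) ((g : V →ₗ[k] V) y) = _
        rw [← Module.End.mul_apply, ← hcomm.eq, Module.End.mul_apply]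
      · intro x hx
        rw [LinearMap.mem_ker, hu] at hx
        exact hx
    obtain ⟨a1, a2, a3, a4, a5⟩ := subq ((u : V →ₗ[k] V) - 1) W₁ W₂ h12 huW r hr M hM3 _ rfl hd
    refine ⟨_, _, rfl, rfl, hM, a1, a2, a3, a4, ?_, ?_⟩
    · intro x hx
      obtain ⟨y, hy⟩ := a5 x hx
      exact ⟨y, hy⟩
    · intro x hx y hy
      obtain ⟨z, rfl⟩ := a5 x hx
      exact orth_aux b u hui M z y hy
  obtain ⟨N, F, hN, hF, hNF, b1, b2, b3, b4, b5, b6⟩ := key g u n C R hu hg huW hC hCR hCr hcop hM1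
  obtain ⟨N', F', hN', hF', hNF', c1, c2, c3, c4, c5, c6⟩ :=
    key g' u' n' C' R' hu' hg' huW' hC' hCR' hCr' hcop' hM2
  -- the isometry
  let π : V →ₗ[k] N' := Submodule.linearProjOfIsCompl N' F' hNF'
  have hπ : ∀ x ∈ W₂, x - (π x : V) ∈ W₁ := by
    intro x hx
    rw [← c3, Submodule.mem_sup] at hx
    obtain ⟨y, hy, z, hz, rfl⟩ := hx
    have e1 : π y = ⟨y, hy⟩ := Submodule.linearProjOfIsCompl_apply_left hNF' ⟨y, hy⟩
    have e2 : π z = 0 := Submodule.linearProjOfIsCompl_apply_right hNF' ⟨z, c5 hz⟩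
    rw [map_add, e1, e2, add_zero]
    simpa using hz
  let φ : N →ₗ[k] N' := π.domRestrict N
  have hφ : Function.Injective φ := by
    rw [← LinearMap.ker_eq_bot, LinearMap.ker_eq_bot']
    intro x hx
    have h3 := hπ x (b1 x.2)
    have h4 : π (x : V) = 0 := hx
    rw [h4, Submodule.coe_zero, sub_zero] at h3
    have h5 : (x : V) ∈ N ⊓ W₁ := ⟨x.2, h3⟩
    rw [b2] at h5
    exact Subtype.ext h5
  have hfin : finrank k N = finrank k N' := by rw [b4, c4]
  let e : N ≃ₗ[k] N' := LinearEquiv.ofInjectiveOfFinrankEq φ hφ hfin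
  have he : ∀ x : N, ((x : V) - (e x : V)) ∈ W₁ := by
    intro x
    exact hπ x (b1 x.2)
  let ν : Basis (Fin (finrank k N)) k N := Module.finBasis k N
  let ν' : Basis (Fin (finrank k N)) k N' := ν.map e
  have hgram : gram b (fun i => (ν i : V)) = gram b (fun i => (ν' i : V)) := by
    ext i j
    rw [gram_apply, gram_apply]
    have e1 : ν' i = e (ν i) := Basis.map_apply ν e i
    have e2 : ν' j = e (ν j) := Basis.map_apply ν e j
    rw [e1, e2]
    have h3 := b6 _ (he (ν i)) _ (ν j).2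
    have h4 := c6 _ (he (ν j)) _ (e (ν i)).2
    rw [map_sub, LinearMap.sub_apply, sub_eq_zero] at h3
    rw [map_sub, LinearMap.sub_apply, sub_eq_zero, hb, hb (e (ν j) : V)] at h4
    rw [h3, h4]
  have hcard : C.natDegree ≤ Fintype.card (Fin (finrank k N)) := by
    rw [Fintype.card_fin, b4, hCr]
  have hcard' : C'.natDegree ≤ Fintype.card (Fin (finrank k N)) := by
    rw [Fintype.card_fin, b4, hCr']
  obtain ⟨hd, x, hx⟩ := disc_main h2 b hb g hg β hβ C R hC hR hCR u n hu hcop hm M N F hN hF hNF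
    ν hcard
  obtain ⟨_, y, hy⟩ := disc_main h2 b hb g' hg' β hβ C' R' hC' hR' hCR' u' n' hu' hcop' hm' M N'
    F' hN' hF' hNF' ν' hcard'
  rw [← hgram] at hy
  refine ⟨x * y / ((gram b β).det * (gram b fun i => (ν i : V)).det), ?_⟩
  field_simp
  linear_combination ((gram b β).det * (gram b fun i => (ν i : V)).det *
    (eval 1 R' * eval (-1) R')) * hx + x * x * hy

end

/-- Two elements of a group of isometries, in terms of matrices. -/
theorem alg_main {k : Type} [Field k] (h2 : (2 : k) ≠ 0) {m : ℕ} {G : Type} [Group G]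
    (ρ : G →* Matrix (Fin m) (Fin m) k) (J : Matrix (Fin m) (Fin m) k) (hJ : J.transpose = J)
    (hJ0 : J.det ≠ 0) (hρ : ∀ σ, (ρ σ).transpose * J * ρ σ = J)
    (W₁ W₂ : Submodule k (Fin m → k)) (h12 : W₁ ≤ W₂) (r : ℕ)
    (hr : finrank k W₁ + r ≤ finrank k W₂) (σ τ : G) (n n' : ℕ)
    (hσ : ∀ x ∈ W₂, (ρ (σ ^ n)).mulVec x - x ∈ W₁) (hτ : ∀ x ∈ W₂, (ρ (τ ^ n')).mulVec x - x ∈ W₁)
    (C R C' R' : k[X]) (hC : C.Monic) (hR : R.Monic) (hC' : C'.Monic) (hR' : R'.Monic)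
    (hCR : (ρ σ).charpoly = C * R) (hCR' : (ρ τ).charpoly = C' * R')
    (hCr : C.natDegree = r) (hCr' : C'.natDegree = r)
    (hcop : IsCoprime R (X ^ n - 1)) (hcop' : IsCoprime R' (X ^ n' - 1))
    (hm : R.eval (-1) ≠ 0) (hm' : R'.eval (-1) ≠ 0) :
    IsSquare ((R.eval 1 * R.eval (-1)) * (R'.eval 1 * R'.eval (-1))) := by
  classical
  let b : (Fin m → k) →ₗ[k] (Fin m → k) →ₗ[k] k := Matrix.toLinearMap₂' k J
  have hbapp : ∀ x y, b x y = dotProduct x (J.mulVec y) := by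
    intro x y
    exact Matrix.toLinearMap₂'_apply' J x y
  have hb : ∀ x y, b x y = b y x := by
    intro x y
    rw [hbapp, hbapp, Matrix.dotProduct_mulVec, ← Matrix.mulVec_transpose, hJ, dotProduct_comm]
  have hiso : ∀ σ x y, b ((ρ σ).mulVec x) ((ρ σ).mulVec y) = b x y := by
    intro σ x y
    rw [hbapp, hbapp, ← Matrix.vecMul_transpose, ← Matrix.dotProduct_mulVec,
      Matrix.mulVec_mulVec, Matrix.mulVec_mulVec, hρ]
  have hg0 : gram b (Pi.basisFun k (Fin m)) = J := by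
    ext i j
    rw [gram_apply, hbapp, Pi.basisFun_apply, Pi.basisFun_apply]
    simp
  let g : G → ((Fin m → k) ≃ₗ[k] (Fin m → k)) := fun σ =>
    LinearEquiv.ofLinear (ρ σ).mulVecLin (ρ σ⁻¹).mulVecLin
      (by
        rw [← Matrix.mulVecLin_mul, ← map_mul, mul_inv_cancel, map_one, Matrix.mulVecLin_one])
      (by
        rw [← Matrix.mulVecLin_mul, ← map_mul, inv_mul_cancel, map_one, Matrix.mulVecLin_one])
  have hgl : ∀ σ, (g σ : (Fin m → k) →ₗ[k] (Fin m → k)) = (ρ σ).mulVecLin := fun σ => rfl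
  have hpow : ∀ (σ : G) (n : ℕ), (ρ (σ ^ n)).mulVecLin = ((ρ σ).mulVecLin) ^ n := by
    intro σ n
    induction n with
    | zero => rw [pow_zero, map_one, Matrix.mulVecLin_one, pow_zero]; rfl
    | succ n ih => rw [pow_succ, map_mul, Matrix.mulVecLin_mul, ih, pow_succ]; rfl
  apply two_main h2 b hb (Pi.basisFun k (Fin m)) (by rw [hg0]; exact hJ0) W₁ W₂ h12 r hr
    (g σ) (g (σ ^ n)) (g τ) (g (τ ^ n')) (fun x y => hiso σ x y) (fun x y => hiso τ x y) n n'
    (by rw [hgl, hgl, hpow]) (by rw [hgl, hgl, hpow]) hσ hτ C R C' R' hC hR hC' hR'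
    (by rw [hgl, Matrix.charpoly_mulVecLin, hCR]) (by rw [hgl, Matrix.charpoly_mulVecLin, hCR'])
    hCr hCr' hcop hcop' hm hm'

end Pool.Agent.VL
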