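import Pool.Agent.Lib_helper74.VL.LA4

/-!
# Discriminants of isometries, part 5: powers
-/

set_option autoImplicit false

namespace Pool.Agent.VL

open Matrix Module Polynomial

section

variable {k : Type} [Field k] {V : Type} [AddCommGroup V] [Module k V] [FiniteDimensional k V]

theorem eval_ne_of_coprime {R : k[X]} (h : ∀ j : ℕ, 0 < j → IsCoprime R (X ^ j - 1)) :
    R.eval 1 ≠ 0 ∧ R.eval (-1) ≠ 0 := by
  obtain ⟨a, c, hac⟩ := h 2 two_pos
  constructor
  · intro h0
    have h1 := congrArg (Polynomial.eval (1 : k)) hac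
    simp [h0] at h1
  · intro h0
    have h1 := congrArg (Polynomial.eval (-1 : k)) hac
    simp [h0] at h1

/-- Powers of an isometry. -/
theorem pow_linear (h2 : (2 : k) ≠ 0) (b : V →ₗ[k] V →ₗ[k] k) (hb : ∀ x y, b x y = b y x)
    (g : V ≃ₗ[k] V) (hg : ∀ x y, b (g x) (g y) = b x y) {ι : Type} [Fintype ι] [DecidableEq ι]
    (β : Basis ι k V) (hβ : (gram b β).det ≠ 0) (C R : k[X]) (hC : C.Monic) (hR : R.Monic)
    (hCR : (g : V →ₗ[k] V).charpoly = C * R) (n e : ℕ) (hCn : C ∣ (X ^ n - 1) ^ e)
    (hn : 0 < n) (hcop : ∀ j : ℕ, 0 < j → IsCoprime R (X ^ j - 1)) (q : ℕ) (hq : 0 < q) :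
    ∃ C₁ R₁ : k[X], C₁.Monic ∧ R₁.Monic ∧ ((g : V →ₗ[k] V) ^ q).charpoly = C₁ * R₁ ∧
      C₁.natDegree = C.natDegree ∧ (∀ j : ℕ, 0 < j → IsCoprime R₁ (X ^ j - 1)) ∧
      IsSquare ((R.eval 1 * R.eval (-1)) * (R₁.eval 1 * R₁.eval (-1))) := by
  classical
  set G : V →ₗ[k] V := (g : V →ₗ[k] V) with hG
  obtain ⟨M, hM1, hM2⟩ := ((G ^ n - 1 : Module.End k V).eventually_isCompl_ker_pow_range_pow.and
    (Filter.eventually_ge_atTop 1)).exists
  obtain ⟨N, hN⟩ : ∃ N, N = LinearMap.ker ((G ^ n - 1 : Module.End k V) ^ M) := ⟨_, rfl⟩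
  obtain ⟨F, hF⟩ : ∃ F, F = LinearMap.range ((G ^ n - 1 : Module.End k V) ^ M) := ⟨_, rfl⟩
  rw [← hN, ← hF] at hM1
  have hcomm : Commute G ((G ^ n - 1) ^ M) := by
    apply Commute.pow_right
    exact (Commute.pow_right (Commute.refl _) n).sub_right (Commute.one_right _)
  have hGN : ∀ x ∈ N, G x ∈ N := by
    intro x hx
    rw [hN, LinearMap.mem_ker] at hx ⊢
    rw [← Module.End.mul_apply, ← hcomm.eq, Module.End.mul_apply, hx, map_zero]
  have hGF : ∀ x ∈ F, G x ∈ F := by
    intro x hx
    rw [hF] at hx ⊢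
    obtain ⟨y, rfl⟩ := hx
    refine ⟨G y, ?_⟩
    rw [← Module.End.mul_apply, ← hcomm.eq, Module.End.mul_apply]
  have hNz : ∀ x ∈ N, ((G ^ n - 1) ^ M) x = 0 := by
    intro x hx
    rw [hN] at hx
    exact hx
  have hpowapp : ∀ (F : Submodule k V) (hGF : ∀ x ∈ F, G x ∈ F) (j : ℕ) (z : F),
      (((G.restrict hGF) ^ j) z : V) = (G ^ j) z := by
    intro F hGF j
    induction j with
    | zero => intro z; rfl
    | succ j ih =>
      intro z
      rw [pow_succ', Module.End.mul_apply, LinearMap.coe_restrict_apply, ih, pow_succ',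
        Module.End.mul_apply]
  have hsplit := charpoly_split G N F hM1 hGN hGF
  have hcop1 : IsCoprime (G.restrict hGN).charpoly R :=
    coprime_aux G n M N hGN hNz R (hcop n hn)
  have hcop2 : IsCoprime (G.restrict hGF).charpoly (X ^ n - 1) := by
    apply coprime_of_inj
    rw [← LinearMap.ker_eq_bot, LinearMap.ker_eq_bot']
    intro x hx
    rw [map_sub, map_pow, aeval_X, map_one] at hx
    have h3 : (G ^ n - 1) (x : V) = 0 := by
      have h4 := congrArg Subtype.val hx
      rw [LinearMap.sub_apply, Submodule.coe_sub, hpowapp] at h4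
      exact h4
    have h5 : (x : V) ∈ N ⊓ F := by
      refine ⟨?_, x.2⟩
      rw [hN]
      obtain ⟨L, rfl⟩ : ∃ L, M = L + 1 := ⟨M - 1, by omega⟩
      change ((G ^ n - 1 : Module.End k V) ^ (L + 1)) (x : V) = 0
      rw [pow_succ, Module.End.mul_apply, h3, map_zero]
    rw [hM1.inf_eq_bot] at h5
    exact Subtype.ext h5
  have hPN : (G.restrict hGN).charpoly = C := by
    have hm1 : (G.restrict hGN).charpoly.Monic := LinearMap.charpoly_monic _
    have d1 : (G.restrict hGN).charpoly ∣ C := by
      apply hcop1.dvd_of_dvd_mul_right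
      rw [← hCR, hsplit]
      exact Dvd.intro _ rfl
    have d2 : C ∣ (G.restrict hGN).charpoly := by
      have h3 : IsCoprime C (G.restrict hGF).charpoly :=
        ((hcop2.pow_right (n := e)).of_isCoprime_of_dvd_right hCn).symm
      apply h3.dvd_of_dvd_mul_right
      rw [← hsplit, hCR]
      exact Dvd.intro _ rfl
    exact Polynomial.eq_of_monic_of_associated hm1 hC (associated_of_dvd_dvd d1 d2)
  have hPF : (G.restrict hGF).charpoly = R := by
    rw [hPN, hCR] at hsplit
    exact (mul_left_cancel₀ hC.ne_zero hsplit).symm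
  -- the power
  have hGqN : ∀ x ∈ N, (G ^ q) x ∈ N := by
    intro x hx
    rw [← hpowapp N hGN q ⟨x, hx⟩]
    exact Subtype.coe_prop _
  have hGqF : ∀ x ∈ F, (G ^ q) x ∈ F := by
    intro x hx
    rw [← hpowapp F hGF q ⟨x, hx⟩]
    exact Subtype.coe_prop _
  have hrest : (G ^ q).restrict hGqF = (G.restrict hGF) ^ q := by
    apply LinearMap.ext
    intro x
    apply Subtype.ext
    rw [hpowapp]
    rfl
  have hsplit2 := charpoly_split (G ^ q) N F hM1 hGqN hGqF
  have hcop3 : ∀ j : ℕ, 0 < j → IsCoprime ((G ^ q).restrict hGqF).charpoly (X ^ j - 1) := by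
    intro j hj
    apply coprime_of_inj
    rw [← LinearMap.ker_eq_bot, LinearMap.ker_eq_bot']
    intro x hx
    rw [map_sub, map_pow, aeval_X, map_one, hrest, ← pow_mul] at hx
    obtain ⟨a, c, hac⟩ := hcop (q * j) (Nat.mul_pos hq hj)
    have h4 := congrArg (aeval (G.restrict hGF)) hac
    have h5 : aeval (G.restrict hGF) R = 0 := by
      rw [← hPF]
      exact LinearMap.aeval_self_charpoly _
    rw [map_add, map_mul, map_mul, h5, mul_zero, zero_add, map_one, map_sub, map_pow, aeval_X,
      map_one] at h4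
    have h6 := congrArg (fun φ : F →ₗ[k] F => φ x) h4
    simp only [Module.End.mul_apply, Module.End.one_apply] at h6
    rw [hx, map_zero] at h6
    exact h6.symm
  refine ⟨((G ^ q).restrict hGqN).charpoly, ((G ^ q).restrict hGqF).charpoly,
    LinearMap.charpoly_monic _, LinearMap.charpoly_monic _, hsplit2, ?_, hcop3, ?_⟩
  · rw [LinearMap.charpoly_natDegree, ← hPN, LinearMap.charpoly_natDegree]
  · -- the discriminants
    have hui : ∀ (j : ℕ) (x y : V), b ((G ^ j) x) ((G ^ j) y) = b x y := by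
      intro j
      induction j with
      | zero => intro x y; rfl
      | succ j ih =>
        intro x y
        rw [pow_succ', Module.End.mul_apply, Module.End.mul_apply]
        change b (g ((G ^ j) x)) (g ((G ^ j) y)) = b x y
        rw [hg, ih]
    let u : V ≃ₗ[k] V := LinearEquiv.ofBijective (G ^ n) (by
      have hinj : Function.Injective (G ^ n) := by
        rw [Module.End.coe_pow]
        exact g.injective.iterate n
      exact ⟨hinj, LinearMap.injective_iff_surjective.mp hinj⟩)
    have hu : (u : V →ₗ[k] V) = G ^ n := rfl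
    have horth : ∀ x ∈ N, ∀ y ∈ F, b x y = 0 := by
      intro x hx y hy
      rw [hF] at hy
      obtain ⟨z, rfl⟩ := hy
      rw [hb]
      exact orth_aux b u (fun x y => hui n x y) M z x (hNz x hx)
    let γ := Module.finBasis k F
    let ν := Module.finBasis k N
    obtain ⟨_, hs2⟩ := gram_split b hb N F hM1 horth ν γ β
    obtain ⟨_, hdF⟩ := hs2 hβ
    let bF : F →ₗ[k] F →ₗ[k] k := b.domRestrict₁₂ F F
    have hbF : gram bF γ = gram b fun i => (γ i : V) := rfl
    have hs3 : IsSquare ((gram bF γ).det * ((G.restrict hGF).charpoly.eval 1 *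
        (G.restrict hGF).charpoly.eval (-1))) := by
      apply iso_linear h2 bF
      · intro x y
        exact hb x y
      · intro x y
        exact hg x y
      · rw [hbF]
        exact hdF
      · rw [hPF]
        exact (eval_ne_of_coprime hcop).2
    have hs4 : IsSquare ((gram bF γ).det * (((G ^ q).restrict hGqF).charpoly.eval 1 *
        ((G ^ q).restrict hGqF).charpoly.eval (-1))) := by
      apply iso_linear h2 bF
      · intro x y
        exact hb x y
      · intro x y
        exact hui q x y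
      · rw [hbF]
        exact hdF
      · exact (eval_ne_of_coprime hcop3).2
    rw [hPF, hbF] at hs3
    rw [hbF] at hs4
    obtain ⟨x, hx⟩ := hs3
    obtain ⟨y, hy⟩ := hs4
    refine ⟨x * y / (gram b fun i => (γ i : V)).det, ?_⟩
    field_simp
    linear_combination ((gram b fun i => (γ i : V)).det *
      (eval 1 ((G ^ q).restrict hGqF).charpoly * eval (-1) ((G ^ q).restrict hGqF).charpoly)) * hx
      + x * x * hy

end

end Pool.Agent.VL
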