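import Pool.Agent.Lib_helper74.VL.LA5

/-!
# Discriminants of isometries, part 6: matrices
-/

set_option autoImplicit false

namespace Pool.Agent.VL

open Matrix Module Polynomial

section

variable {k : Type} [Field k] {m : ℕ} {G : Type} [Group G]

theorem mat_pow (ρ : G →* Matrix (Fin m) (Fin m) k) (σ : G) (n : ℕ) :
    (ρ (σ ^ n)).mulVecLin = ((ρ σ).mulVecLin) ^ n := by
  induction n with
  | zero => rw [pow_zero, map_one, Matrix.mulVecLin_one, pow_zero]; rfl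
  | succ n ih => rw [pow_succ, map_mul, Matrix.mulVecLin_mul, ih, pow_succ]; rfl

/-- The bilinear form and the isometries of an orthogonal representation. -/
theorem mat_data (ρ : G →* Matrix (Fin m) (Fin m) k) (J : Matrix (Fin m) (Fin m) k)
    (hJ : J.transpose = J) (hJ0 : J.det ≠ 0) (hρ : ∀ σ, (ρ σ).transpose * J * ρ σ = J) :
    ∃ b : (Fin m → k) →ₗ[k] (Fin m → k) →ₗ[k] k, (∀ x y, b x y = b y x) ∧
      (gram b (Pi.basisFun k (Fin m))).det ≠ 0 ∧
      ∀ σ : G, ∃ g : (Fin m → k) ≃ₗ[k] (Fin m → k),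
        (g : (Fin m → k) →ₗ[k] (Fin m → k)) = (ρ σ).mulVecLin ∧
        ∀ x y, b (g x) (g y) = b x y := by
  classical
  let b : (Fin m → k) →ₗ[k] (Fin m → k) →ₗ[k] k := Matrix.toLinearMap₂' k J
  have hbapp : ∀ x y, b x y = dotProduct x (J.mulVec y) := by
    intro x y
    exact Matrix.toLinearMap₂'_apply' J x y
  have hb : ∀ x y, b x y = b y x := by
    intro x y
    rw [hbapp, hbapp, Matrix.dotProduct_mulVec, ← Matrix.mulVec_transpose, hJ, dotProduct_comm]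
  have hiso : ∀ σ x y, b ((ρ σ).mulVec x) ((ρ σ).mulVec y) = b x y := by
    intro σ x y
    rw [hbapp, hbapp, ← Matrix.vecMul_transpose, ← Matrix.dotProduct_mulVec,
      Matrix.mulVec_mulVec, Matrix.mulVec_mulVec, hρ]
  have hg0 : gram b (Pi.basisFun k (Fin m)) = J := by
    ext i j
    rw [gram_apply, hbapp, Pi.basisFun_apply, Pi.basisFun_apply]
    simp
  refine ⟨b, hb, by rw [hg0]; exact hJ0, fun σ => ⟨LinearEquiv.ofLinear (ρ σ).mulVecLin
    (ρ σ⁻¹).mulVecLin ?_ ?_, rfl, fun x y => hiso σ x y⟩⟩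
  · rw [← Matrix.mulVecLin_mul, ← map_mul, mul_inv_cancel, map_one, Matrix.mulVecLin_one]
  · rw [← Matrix.mulVecLin_mul, ← map_mul, inv_mul_cancel, map_one, Matrix.mulVecLin_one]

/-- Powers. -/
theorem pow_mat (h2 : (2 : k) ≠ 0) (ρ : G →* Matrix (Fin m) (Fin m) k)
    (J : Matrix (Fin m) (Fin m) k) (hJ : J.transpose = J) (hJ0 : J.det ≠ 0)
    (hρ : ∀ σ, (ρ σ).transpose * J * ρ σ = J) (σ : G) (C R : k[X]) (hC : C.Monic) (hR : R.Monic)
    (hCR : (ρ σ).charpoly = C * R) (n e : ℕ) (hCn : C ∣ (X ^ n - 1) ^ e)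
    (hn : 0 < n) (hcop : ∀ j : ℕ, 0 < j → IsCoprime R (X ^ j - 1)) (q : ℕ) (hq : 0 < q) :
    ∃ C₁ R₁ : k[X], C₁.Monic ∧ R₁.Monic ∧ (ρ (σ ^ q)).charpoly = C₁ * R₁ ∧
      C₁.natDegree = C.natDegree ∧ (∀ j : ℕ, 0 < j → IsCoprime R₁ (X ^ j - 1)) ∧
      IsSquare ((R.eval 1 * R.eval (-1)) * (R₁.eval 1 * R₁.eval (-1))) := by
  obtain ⟨b, hb, hb0, hg⟩ := mat_data ρ J hJ hJ0 hρ
  obtain ⟨g, hg1, hg2⟩ := hg σ
  have h1 := pow_linear h2 b hb g hg2 (Pi.basisFun k (Fin m)) hb0 C R hC hR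
    (by rw [hg1, Matrix.charpoly_mulVecLin, hCR]) n e hCn hn hcop q hq
  rw [hg1, ← mat_pow, Matrix.charpoly_mulVecLin] at h1
  exact h1

/-- The dimension of a subquotient. -/
theorem count_mat (ρ : G →* Matrix (Fin m) (Fin m) k)
    (W₁ W₂ : Submodule k (Fin m → k)) (σ : G) (n : ℕ) (hn : 0 < n)
    (hσ : ∀ x ∈ W₂, (ρ (σ ^ n)).mulVec x - x ∈ W₁) (C R : k[X]) (hC : C.Monic)
    (hCR : (ρ σ).charpoly = C * R) (hcop : IsCoprime R (X ^ n - 1)) :
    finrank k W₂ ≤ finrank k W₁ + C.natDegree := by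
  set g : (Fin m → k) →ₗ[k] (Fin m → k) := (ρ σ).mulVecLin with hg
  obtain ⟨M, hM1, hM2⟩ := ((g ^ n - 1 : Module.End k (Fin m → k)).eventually_isCompl_ker_pow_range_pow.and
    (Filter.eventually_ge_atTop 1)).exists
  have hcomm : Commute g ((g ^ n - 1) ^ M) := by
    apply Commute.pow_right
    exact (Commute.pow_right (Commute.refl _) n).sub_right (Commute.one_right _)
  have hd : finrank k (LinearMap.ker ((g ^ n - 1) ^ M)) ≤ C.natDegree := by
    apply dim_le g n M _ _ hM1 _ _ _ C R hC (by rw [hg, Matrix.charpoly_mulVecLin, hCR]) hcop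
    · intro x hx
      rw [LinearMap.mem_ker] at hx ⊢
      rw [← Module.End.mul_apply, ← hcomm.eq, Module.End.mul_apply, hx, map_zero]
    · rintro x ⟨y, rfl⟩
      refine ⟨g y, ?_⟩
      rw [← Module.End.mul_apply, ← hcomm.eq, Module.End.mul_apply]
    · intro x hx
      exact hx
  obtain ⟨L, rfl⟩ : ∃ L, M = L + 1 := ⟨M - 1, by omega⟩
  set f : (Fin m → k) →ₗ[k] (Fin m → k) := g ^ n - 1 with hf
  have hfW : ∀ x ∈ W₂, f x ∈ W₁ := by
    intro x hx
    have h1 := hσ x hx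
    have h2 : f x = (ρ (σ ^ n)).mulVec x - x := by
      rw [hf, hg, ← mat_pow]
      rfl
    rw [h2]
    exact h1
  have h1 := fk (f ^ (L + 1)) W₂
  have h3 : W₂.map (f ^ (L + 1)) ≤ W₁.map (f ^ L) := by
    rintro x ⟨y, hy, rfl⟩
    refine ⟨f y, hfW y hy, ?_⟩
    rw [pow_succ, Module.End.mul_apply]
  have h4 := Submodule.finrank_mono h3
  have h5 : finrank k (W₂ ⊓ LinearMap.ker (f ^ (L + 1)) : Submodule k (Fin m → k)) ≤
      finrank k (LinearMap.ker (f ^ (L + 1))) := Submodule.finrank_mono inf_le_right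
  have h6 : finrank k (W₁.map (f ^ L)) ≤ finrank k W₁ := Submodule.finrank_map_le _ _
  omega

end

end Pool.Agent.VL
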