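import Pool.Agent.Lib_helper74.VL.Abb

/-!
# Limits of characteristic polynomials with cyclotomic factors
-/

set_option autoImplicit false

namespace Pool.Agent.VL

open Matrix Polynomial Topology

/-- A monic polynomial whose complex roots are roots of unity divides a power of `X ^ n - 1`. -/
theorem cyc_dvd (C : ℚ[X]) (hC : C.Monic)
    (h : ∀ z : ℂ, aeval z C = 0 → ∃ n : ℕ, 0 < n ∧ z ^ n = 1) :
    ∃ n e : ℕ, 0 < n ∧ C ∣ (X ^ n - 1) ^ e := by
  classical
  choose! o ho1 ho2 using h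
  set D := C.map (algebraMap ℚ ℂ) with hD
  have hroot : ∀ z ∈ D.roots, aeval z C = 0 := by
    intro z hz
    have h1 := (Polynomial.mem_roots'.mp hz).2
    rw [hD, Polynomial.IsRoot.def, Polynomial.eval_map_algebraMap] at h1
    exact h1
  have hn : 0 < ∏ z ∈ D.roots.toFinset, o z := by
    apply Finset.prod_pos
    intro z hz
    exact ho1 z (hroot z (Multiset.mem_toFinset.mp hz))
  refine ⟨∏ z ∈ D.roots.toFinset, o z, Multiset.card D.roots, hn, ?_⟩
  rw [← Polynomial.map_dvd_map' (algebraMap ℚ ℂ), ← hD]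
  have hDm : D.Monic := hC.map _
  have h1 : D = (D.roots.map fun a => X - Polynomial.C a).prod :=
    (IsAlgClosed.splits D).eq_prod_roots_of_monic hDm
  have h2 : ((D.roots.map fun a => X - Polynomial.C a).prod) ∣
      ((X ^ (∏ z ∈ D.roots.toFinset, o z) - 1 : ℂ[X]) ^ Multiset.card D.roots) := by
    have h3 : ∀ s : Multiset ℂ, (∀ z ∈ s, z ∈ D.roots) → ((s.map fun a => X - Polynomial.C a).prod) ∣
        ((X ^ (∏ z ∈ D.roots.toFinset, o z) - 1 : ℂ[X]) ^ Multiset.card s) := by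
      intro s
      induction s using Multiset.induction_on with
      | empty => intro _; simp
      | cons a s ih =>
        intro hs
        rw [Multiset.map_cons, Multiset.prod_cons, Multiset.card_cons, pow_succ']
        apply mul_dvd_mul
        · rw [Polynomial.dvd_iff_isRoot]
          have ha := hs a (Multiset.mem_cons_self a s)
          have h4 : o a ∣ ∏ z ∈ D.roots.toFinset, o z :=
            Finset.dvd_prod_of_mem _ (Multiset.mem_toFinset.mpr ha)
          obtain ⟨c, hc⟩ := h4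
          rw [Polynomial.IsRoot.def, hc, Polynomial.eval_sub, Polynomial.eval_pow,
            Polynomial.eval_X, Polynomial.eval_one, pow_mul, ho2 a (hroot a ha), one_pow, sub_self]
        · exact ih fun z hz => hs z (Multiset.mem_cons_of_mem hz)
    exact h3 _ fun z hz => hz
  rw [← h1] at h2
  rw [Polynomial.map_pow, Polynomial.map_sub, Polynomial.map_pow, Polynomial.map_X,
    Polynomial.map_one]
  exact h2

/-- There are finitely many such polynomials of bounded degree. -/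
theorem cyc_finite (m : ℕ) : {C : ℚ[X] | C.Monic ∧ C.natDegree ≤ m ∧
    ∀ z : ℂ, aeval z C = 0 → ∃ n : ℕ, 0 < n ∧ z ^ n = 1}.Finite := by
  classical
  let B : Fin (m + 1) → ℤ := fun _ => 2 ^ m
  have hfin : (Set.Icc (-B) B).Finite := Set.finite_Icc _ _
  apply (hfin.image (fun c : Fin (m + 1) → ℤ =>
    ∑ i : Fin (m + 1), monomial (i : ℕ) ((c i : ℤ) : ℚ))).subset
  rintro C ⟨hC, hdeg, hroots⟩
  obtain ⟨n, e, hn, hdvd⟩ := cyc_dvd C hC hroots
  have hmon : ((X ^ n - 1 : ℤ[X]) ^ e).Monic := by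
    apply Polynomial.Monic.pow
    have := Polynomial.monic_X_pow_sub_C (1 : ℤ) hn.ne'
    rwa [Polynomial.C_1] at this
  have hmap : ((X ^ n - 1 : ℤ[X]) ^ e).map (algebraMap ℤ ℚ) = (X ^ n - 1) ^ e := by
    rw [Polynomial.map_pow, Polynomial.map_sub, Polynomial.map_pow, Polynomial.map_X,
      Polynomial.map_one]
  obtain ⟨g, hg⟩ := IsIntegrallyClosed.eq_map_mul_C_of_dvd ℚ hmon (g := C) (by rw [hmap]; exact hdvd)
  rw [hC.leadingCoeff, Polynomial.C_1, mul_one] at hg
  have hcoef : ∀ i, C.coeff i = ((g.coeff i : ℤ) : ℚ) := by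
    intro i
    rw [← hg, Polynomial.coeff_map]
    rfl
  have hbound : ∀ i, |g.coeff i| ≤ 2 ^ m := by
    intro i
    have h1 := Polynomial.coeff_bdd_of_roots_le (p := C) (f := algebraMap ℚ ℂ) (B := 1) (d := m)
      hC (IsAlgClosed.splits _) hdeg (by
        intro z hz
        have h2 := (Polynomial.mem_roots'.mp hz).2
        rw [Polynomial.IsRoot.def, Polynomial.eval_map_algebraMap] at h2
        obtain ⟨j, hj, hj2⟩ := hroots z h2
        exact (Complex.norm_eq_one_of_pow_eq_one hj2 hj.ne').le) i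
    rw [max_self, one_pow, one_mul, Polynomial.coeff_map, hcoef] at h1
    have h2 : ((m.choose (m / 2) : ℕ) : ℝ) ≤ 2 ^ m := by
      have h3 : m.choose (m / 2) ≤ 2 ^ m := Nat.choose_le_two_pow m (m / 2)
      exact_mod_cast h3
    have h3 : ‖algebraMap ℚ ℂ ((g.coeff i : ℤ) : ℚ)‖ = ((|g.coeff i| : ℤ) : ℝ) := by
      have h4 : algebraMap ℚ ℂ ((g.coeff i : ℤ) : ℚ) = ((g.coeff i : ℤ) : ℂ) := by simp
      rw [h4, Complex.norm_intCast, Int.cast_abs]
    rw [h3] at h1
    exact_mod_cast h1.trans h2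
  refine ⟨fun i => g.coeff i, ?_, ?_⟩
  · rw [Set.mem_Icc]
    constructor
    · intro i
      exact (abs_le.mp (hbound i)).1
    · intro i
      exact (abs_le.mp (hbound i)).2
  · change ∑ i : Fin (m + 1), monomial (i : ℕ) ((g.coeff i : ℤ) : ℚ) = C
    rw [Fin.sum_univ_eq_sum_range (fun i => monomial i ((g.coeff i : ℤ) : ℚ)) (m + 1)]
    conv_rhs => rw [C.as_sum_range_C_mul_X_pow' (by omega : C.natDegree < m + 1)]
    apply Finset.sum_congr rfl
    intro i _
    rw [hcoef, Polynomial.C_mul_X_pow_eq_monomial]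

theorem add_div_aux {k : Type} [Field k] {g : k[X]} (hg : g.Monic) (P P' : k[X]) :
    (P + P') /ₘ g = P /ₘ g + P' /ₘ g := by
  refine (Polynomial.div_modByMonic_unique (P /ₘ g + P' /ₘ g) (P %ₘ g + P' %ₘ g) hg ⟨?_, ?_⟩).1
  · have h1 := Polynomial.modByMonic_add_div P g
    have h2 := Polynomial.modByMonic_add_div P' g
    linear_combination h1 + h2
  · exact (Polynomial.degree_add_le _ _).trans_lt
      (max_lt (Polynomial.degree_modByMonic_lt _ hg) (Polynomial.degree_modByMonic_lt _ hg))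

theorem smul_div_aux {k : Type} [Field k] {g : k[X]} (hg : g.Monic) (a : k) (P : k[X]) :
    (a • P) /ₘ g = a • (P /ₘ g) := by
  refine (Polynomial.div_modByMonic_unique (a • (P /ₘ g)) (a • (P %ₘ g)) hg ⟨?_, ?_⟩).1
  · have h1 := Polynomial.modByMonic_add_div P g
    rw [mul_smul_comm, ← smul_add, h1]
  · exact (Polynomial.degree_smul_le _ _).trans_lt (Polynomial.degree_modByMonic_lt _ hg)

section

variable {ℓ : ℕ} [Fact ℓ.Prime]

/-- Numbers near `1` are squares. -/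
theorem sq_near_one : ∃ ε : ℝ, 0 < ε ∧ ∀ y : ℚ_[ℓ], ‖y - 1‖ < ε → IsSquare y := by
  refine ⟨‖(2 : ℚ_[ℓ])‖ ^ 2, by
    have : (2 : ℚ_[ℓ]) ≠ 0 := two_ne_zero
    positivity, ?_⟩
  intro y hy
  have h2 : ‖(2 : ℚ_[ℓ])‖ ≤ 1 := by
    have := Padic.norm_int_le_one (p := ℓ) 2
    simpa using this
  have hy1 : ‖y‖ ≤ 1 := by
    have h3 : ‖y - 1‖ ≤ 1 := hy.le.trans (pow_le_one₀ (norm_nonneg _) h2)
    calc ‖y‖ = ‖(y - 1) + 1‖ := by ring_nf
      _ ≤ max ‖y - 1‖ ‖(1 : ℚ_[ℓ])‖ := Padic.nonarchimedean _ _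
      _ ≤ 1 := by rw [norm_one]; exact max_le h3 le_rfl
  let y' : ℤ_[ℓ] := ⟨y, hy1⟩
  obtain ⟨z, hz, _⟩ := hensels_lemma (p := ℓ) (F := X ^ 2 - C y') (a := 1) (by
    simp only [map_sub, map_pow, aeval_X, aeval_C, Polynomial.derivative_sub,
      Polynomial.derivative_X_pow, Polynomial.derivative_C, sub_zero, one_pow, map_mul]
    have e1 : ‖(1 : ℤ_[ℓ]) - y'‖ = ‖y - 1‖ := by
      rw [← norm_neg, neg_sub]
      rfl
    have e2 : ‖(2 : ℤ_[ℓ])‖ = ‖(2 : ℚ_[ℓ])‖ := rfl
    simp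
    rw [e1, e2]
    exact hy)
  refine ⟨(z : ℚ_[ℓ]), ?_⟩
  simp only [map_sub, map_pow, aeval_X, aeval_C] at hz
  have h3 : z ^ 2 = y' := sub_eq_zero.mp hz
  have h4 := congrArg (fun t : ℤ_[ℓ] => (t : ℚ_[ℓ])) h3
  simp only [PadicInt.coe_pow] at h4
  rw [← pow_two, h4]

theorem sq_near {D : ℚ_[ℓ]} (hD : D ≠ 0) : ∀ᶠ x in 𝓝 D, IsSquare (x * D) := by
  obtain ⟨ε, hε, h⟩ := sq_near_one (ℓ := ℓ)
  have hcont : ContinuousAt (fun x : ℚ_[ℓ] => x / D) D := by fun_prop (disch := exact hD)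
  have h1 : ∀ᶠ x in 𝓝 D, x / D ∈ Metric.ball (1 : ℚ_[ℓ]) ε := by
    apply hcont
    change Metric.ball (1 : ℚ_[ℓ]) ε ∈ 𝓝 (D / D)
    rw [div_self hD]
    exact Metric.ball_mem_nhds _ hε
  filter_upwards [h1] with x hx
  rw [Metric.mem_ball, dist_eq_norm] at hx
  obtain ⟨y, hy⟩ := h _ hx
  refine ⟨y * D, ?_⟩
  have h2 : x = y * y * D := by
    rw [← hy, div_mul_cancel₀ _ hD]
  rw [h2]
  ring

/-- Continuity of the coefficients of the characteristic polynomial. -/
theorem coeff_cont {m : ℕ} (i : ℕ) :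
    Continuous fun A : Matrix (Fin m) (Fin m) ℚ_[ℓ] => A.charpoly.coeff i := by
  have h1 : (fun A : Matrix (Fin m) (Fin m) ℚ_[ℓ] => A.charpoly.coeff i) =
      fun A => MvPolynomial.eval (fun x : Fin m × Fin m => A x.1 x.2)
        ((Matrix.charpoly.univ ℚ_[ℓ] (Fin m)).coeff i) := by
    funext A
    have h2 := Matrix.charpoly.univ_coeff_eval₂Hom (n := Fin m) (RingHom.id ℚ_[ℓ])
      (fun x : Fin m × Fin m => A x.1 x.2) i
    have h3 : Matrix.of (Function.curry fun x : Fin m × Fin m => A x.1 x.2) = A := rfl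
    rw [h3] at h2
    rw [← h2]
    rfl
  rw [h1]
  have h2 := MvPolynomial.continuous_eval ((Matrix.charpoly.univ ℚ_[ℓ] (Fin m)).coeff i)
  exact h2.comp (by fun_prop)

/-- The limit argument. -/
theorem lim_main {m : ℕ} (A : Matrix (Fin m) (Fin m) ℚ_[ℓ]) (C₁ R₁ : ℚ_[ℓ][X]) (hC₁ : C₁.Monic)
    (hA : A.charpoly = C₁ * R₁) (hcop : ∀ j : ℕ, 0 < j → IsCoprime R₁ (X ^ j - 1))
    (hR₁ : R₁.eval 1 ≠ 0 ∧ R₁.eval (-1) ≠ 0) :
    ∀ᶠ B in 𝓝 A, ∀ P C R : ℚ[X], CyclotomicFactorization P C R →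
      B.charpoly = P.map (algebraMap ℚ ℚ_[ℓ]) → C.natDegree ≤ C₁.natDegree ∧
        (C.natDegree = C₁.natDegree →
          IsSquare ((((R.eval 1 * R.eval (-1) : ℚ)) : ℚ_[ℓ]) * (R₁.eval 1 * R₁.eval (-1)))) := by
  classical
  set φ := algebraMap ℚ ℚ_[ℓ] with hφ
  set 𝒞 := {C : ℚ[X] | C.Monic ∧ C.natDegree ≤ m ∧
    ∀ z : ℂ, aeval z C = 0 → ∃ n : ℕ, 0 < n ∧ z ^ n = 1} with h𝒞
  have hfin : 𝒞.Finite := cyc_finite m
  -- polynomials from coefficients
  let T : (Fin (m + 1) → ℚ_[ℓ]) →ₗ[ℚ_[ℓ]] ℚ_[ℓ][X] :=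
    ∑ i : Fin (m + 1), (monomial (i : ℕ)).comp (LinearMap.proj i)
  let c : Matrix (Fin m) (Fin m) ℚ_[ℓ] → (Fin (m + 1) → ℚ_[ℓ]) := fun B i => B.charpoly.coeff i
  have hTc : ∀ B, T (c B) = B.charpoly := by
    intro B
    have h1 : T (c B) = ∑ i : Fin (m + 1), monomial (i : ℕ) (B.charpoly.coeff i) := by
      simp [T, c]
    rw [h1, Fin.sum_univ_eq_sum_range (fun i => monomial i (B.charpoly.coeff i)) (m + 1)]
    have h2 : B.charpoly.natDegree < m + 1 := by
      rw [Matrix.charpoly_natDegree_eq_dim, Fintype.card_fin]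
      omega
    conv_rhs => rw [B.charpoly.as_sum_range_C_mul_X_pow' h2]
    apply Finset.sum_congr rfl
    intro i _
    rw [Polynomial.C_mul_X_pow_eq_monomial]
  have hc : Continuous c := by
    apply continuous_pi
    intro i
    exact coeff_cont i
  -- each possible `C`
  have key : ∀ C ∈ 𝒞, ∀ᶠ B in 𝓝 A, (C.map φ ∣ B.charpoly → C.map φ ∣ A.charpoly) ∧
      ∀ R : ℚ_[ℓ][X], C.map φ = C₁ → B.charpoly = C.map φ * R →
        IsSquare ((R.eval 1 * R.eval (-1)) * (R₁.eval 1 * R₁.eval (-1))) := by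
    intro C hC
    have hCm : (C.map φ).Monic := hC.1.map φ
    have h1 : ∀ᶠ B in 𝓝 A, (C.map φ ∣ B.charpoly → C.map φ ∣ A.charpoly) := by
      by_cases hd : C.map φ ∣ A.charpoly
      · exact Filter.Eventually.of_forall fun B _ => hd
      · have h2 : A.charpoly %ₘ C.map φ ≠ 0 := by
          rw [Ne, Polynomial.modByMonic_eq_zero_iff_dvd hCm]
          exact hd
        obtain ⟨j, hj⟩ : ∃ j, (A.charpoly %ₘ C.map φ).coeff j ≠ 0 := by
          by_contra hcon
          push Not at hcon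
          apply h2
          ext j
          rw [hcon j, Polynomial.coeff_zero]
        let L : (Fin (m + 1) → ℚ_[ℓ]) →ₗ[ℚ_[ℓ]] ℚ_[ℓ] :=
          (Polynomial.lcoeff ℚ_[ℓ] j).comp ((Polynomial.modByMonicHom (C.map φ)).comp T)
        have hL : Continuous L := LinearMap.continuous_of_finiteDimensional L
        have hLc : ∀ B, L (c B) = (B.charpoly %ₘ C.map φ).coeff j := by
          intro B
          rw [← hTc B]
          rfl
        have h3 : ∀ᶠ B in 𝓝 A, L (c B) ≠ 0 := by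
          apply (hL.comp hc).continuousAt.eventually_ne
          rw [Function.comp_apply, hLc]
          exact hj
        filter_upwards [h3] with B hB hdB
        exfalso
        apply hB
        rw [hLc, (Polynomial.modByMonic_eq_zero_iff_dvd hCm).mpr hdB, Polynomial.coeff_zero]
    by_cases hC1 : C.map φ = C₁
    · let Q : ℚ_[ℓ][X] →ₗ[ℚ_[ℓ]] ℚ_[ℓ][X] :=
        { toFun := fun P => P /ₘ C.map φ
          map_add' := fun P P' => add_div_aux hCm P P'
          map_smul' := fun a P => smul_div_aux hCm a P }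
      let L : ℚ_[ℓ] → (Fin (m + 1) → ℚ_[ℓ]) →ₗ[ℚ_[ℓ]] ℚ_[ℓ] := fun t =>
        (Polynomial.leval t).comp (Q.comp T)
      have hL : ∀ t, Continuous (L t) := fun t => LinearMap.continuous_of_finiteDimensional (L t)
      have hLc : ∀ t B R, B.charpoly = C.map φ * R → L t (c B) = R.eval t := by
        intro t B R hB
        have h3 : L t (c B) = (B.charpoly /ₘ C.map φ).eval t := by
          rw [← hTc B]
          rfl
        rw [h3, hB, Polynomial.mul_divByMonic_cancel_left _ hCm]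
      have hD : L 1 (c A) * L (-1) (c A) ≠ 0 := by
        rw [hLc 1 A R₁ (by rw [hC1]; exact hA), hLc (-1) A R₁ (by rw [hC1]; exact hA)]
        exact mul_ne_zero hR₁.1 hR₁.2
      have h3 : ∀ᶠ B in 𝓝 A, IsSquare ((L 1 (c B) * L (-1) (c B)) *
          (L 1 (c A) * L (-1) (c A))) := by
        have hcont : Continuous fun B => L 1 (c B) * L (-1) (c B) :=
          ((hL 1).comp hc).mul ((hL (-1)).comp hc)
        exact hcont.continuousAt.eventually (sq_near hD)
      filter_upwards [h1, h3] with B hB1 hB2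
      refine ⟨hB1, ?_⟩
      intro R _ hR
      rw [hLc 1 B R hR, hLc (-1) B R hR, hLc 1 A R₁ (by rw [hC1]; exact hA),
        hLc (-1) A R₁ (by rw [hC1]; exact hA)] at hB2
      exact hB2
    · filter_upwards [h1] with B hB1
      exact ⟨hB1, fun R h3 => absurd h3 hC1⟩
  have key2 : ∀ᶠ B in 𝓝 A, ∀ C ∈ 𝒞, (C.map φ ∣ B.charpoly → C.map φ ∣ A.charpoly) ∧
      ∀ R : ℚ_[ℓ][X], C.map φ = C₁ → B.charpoly = C.map φ * R →
        IsSquare ((R.eval 1 * R.eval (-1)) * (R₁.eval 1 * R₁.eval (-1))) :=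
    (Filter.eventually_all_finite hfin).mpr key
  filter_upwards [key2] with B hB P C R hP hBP
  have hCR : B.charpoly = C.map φ * R.map φ := by
    rw [hBP, hP.eq_mul, Polynomial.map_mul]
  have hCmem : C ∈ 𝒞 := by
    refine ⟨hP.monic_left, ?_, hP.left⟩
    have h1 := congrArg Polynomial.natDegree hCR
    rw [Matrix.charpoly_natDegree_eq_dim, Fintype.card_fin,
      (hP.monic_left.map φ).natDegree_mul (hP.monic_right.map φ), hP.monic_left.natDegree_map,
      hP.monic_right.natDegree_map] at h1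
    omega
  obtain ⟨h1, h2⟩ := hB C hCmem
  have hdA : C.map φ ∣ C₁ * R₁ := by
    rw [← hA]
    exact h1 (by rw [hCR]; exact Dvd.intro _ rfl)
  obtain ⟨n, e, hn, hdvd⟩ := cyc_dvd C hP.monic_left hP.left
  have hcop2 : IsCoprime (C.map φ) R₁ := by
    have h3 : C.map φ ∣ (X ^ n - 1) ^ e := by
      have h4 := Polynomial.map_dvd φ hdvd
      rw [Polynomial.map_pow, Polynomial.map_sub, Polynomial.map_pow, Polynomial.map_X,
        Polynomial.map_one] at h4
      exact h4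
    exact (((hcop n hn).pow_right (n := e)).of_isCoprime_of_dvd_right h3).symm
  have hdC : C.map φ ∣ C₁ := hcop2.dvd_of_dvd_mul_right hdA
  have hdeg : C.natDegree ≤ C₁.natDegree := by
    rw [← hP.monic_left.natDegree_map φ]
    exact Polynomial.natDegree_le_of_dvd hdC hC₁.ne_zero
  refine ⟨hdeg, ?_⟩
  intro heq
  have h3 : C.map φ = C₁ := by
    symm
    apply Polynomial.eq_of_monic_of_dvd_of_natDegree_le (hP.monic_left.map φ) hC₁ hdC
    rw [hP.monic_left.natDegree_map, heq]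
  have h4 := h2 (R.map φ) h3 hCR
  have e1 : (R.map φ).eval 1 = ((R.eval 1 : ℚ) : ℚ_[ℓ]) := by
    have h5 := Polynomial.eval_map_apply (f := φ) (p := R) (x := 1)
    rw [map_one] at h5
    rw [h5]
    rfl
  have e2 : (R.map φ).eval (-1) = ((R.eval (-1) : ℚ) : ℚ_[ℓ]) := by
    have h5 := Polynomial.eval_map_apply (f := φ) (p := R) (x := -1)
    rw [map_neg, map_one] at h5
    rw [h5]
    rfl
  rw [e1, e2] at h4
  rw [Rat.cast_mul]
  exact h4

end

end Pool.Agent.VL
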