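import Pool.Agent.Lib_helper74.VL.GE
import Pool.Agent.Lib_helper74.VL.LA6
import Pool.Agent.Lib_helper74.VL.Blk

/-!
# Two places decide: main part
-/

set_option autoImplicit false

namespace Pool.Agent.VL

open NumberField Polynomial Topology Module

section

variable {K : Type} [Field K] [NumberField K] [Algebra K Qbar] {m : ℕ}

/-- The inverse `g` of a Frobenius element at `𝔓` and its characteristic polynomial `C * R`. -/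
structure Pl (V : ∀ (ℓ : ℕ) [Fact ℓ.Prime], GalK K →* Matrix (Fin m) (Fin m) ℚ_[ℓ])
    (𝔓 : Ideal (𝓞 Qbar)) (g : GalK K) (C R : ℚ[X]) : Prop where
  max : 𝔓.IsMaximal
  frob : ∀ (ℓ : ℕ) [Fact ℓ.Prime], (ℓ : 𝓞 Qbar) ∉ 𝔓 →
    (V ℓ g).charpoly = (C * R).map (algebraMap ℚ ℚ_[ℓ])
  fac : CyclotomicFactorization (C * R) C R

/-- The number `R(1) * R(-1)`. -/
noncomputable def DD (R : ℚ[X]) : ℚ := R.eval 1 * R.eval (-1)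

theorem dd_ne {P C R : ℚ[X]} (h : CyclotomicFactorization P C R) : DD R ≠ 0 := by
  have h1 : ∀ j : ℕ, 0 < j → IsCoprime R (X ^ j - 1) := by
    intro j hj
    have := cyc_coprime h (RingHom.id ℚ) j hj
    rwa [Polynomial.map_id] at this
  obtain ⟨a, b⟩ := eval_ne_of_coprime h1
  exact mul_ne_zero a b

theorem dd_map (R : ℚ[X]) (ℓ : ℕ) [Fact ℓ.Prime] :
    (R.map (algebraMap ℚ ℚ_[ℓ])).eval 1 * (R.map (algebraMap ℚ ℚ_[ℓ])).eval (-1) =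
      ((DD R : ℚ) : ℚ_[ℓ]) := by
  have e1 : (R.map (algebraMap ℚ ℚ_[ℓ])).eval 1 = ((R.eval 1 : ℚ) : ℚ_[ℓ]) := by
    have h5 := Polynomial.eval_map_apply (f := algebraMap ℚ ℚ_[ℓ]) (p := R) (x := 1)
    rw [map_one] at h5
    rw [h5]
    rfl
  have e2 : (R.map (algebraMap ℚ ℚ_[ℓ])).eval (-1) = ((R.eval (-1) : ℚ) : ℚ_[ℓ]) := by
    have h5 := Polynomial.eval_map_apply (f := algebraMap ℚ ℚ_[ℓ]) (p := R) (x := -1)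
    rw [map_neg, map_one] at h5
    rw [h5]
    rfl
  rw [e1, e2, DD, Rat.cast_mul]

theorem pow_mem_open (H : Subgroup (GalK K)) (hH : IsOpen (H : Set (GalK K))) (g : GalK K) :
    ∃ n : ℕ, 0 < n ∧ g ^ n ∈ H := by
  have hgal : IsGalois K Qbar := Pool.Agent.OS.ar_galois
  have hfi : H.FiniteIndex :=
    haveI := H.quotient_finite_of_isOpen hH
    Subgroup.finiteIndex_of_finite_quotient
  obtain ⟨n, hn, _, hn2⟩ := Subgroup.exists_pow_mem_of_index_ne_zero hfi.index_ne_zero g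
  exact ⟨n, hn, hn2⟩

/-- Part (a). -/
theorem part_a {V : ∀ (ℓ : ℕ) [Fact ℓ.Prime], GalK K →* Matrix (Fin m) (Fin m) ℚ_[ℓ]}
    {S : Finset (Ideal (𝓞 K))} {P : Ideal (𝓞 K) → ℚ[X]} (hV : OrthogonalSystem S P V)
    {𝔓 𝔓' : Ideal (𝓞 Qbar)} {g g' : GalK K} {C R C' R' : ℚ[X]} (h : Pl V 𝔓 g C R)
    (h' : Pl V 𝔓' g' C' R') {r : ℕ} (hC : C.natDegree = r) (hC' : C'.natDegree = r)
    (ℓ : ℕ) [Fact ℓ.Prime] (hℓ : (ℓ : 𝓞 Qbar) ∉ 𝔓) (hℓ' : (ℓ : 𝓞 Qbar) ∉ 𝔓')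
    (hD : ¬ IsSquare ((DD R * DD R' : ℚ) : ℚ_[ℓ])) : FewTateClasses ℚ_[ℓ] (fun σ => (V ℓ σ).mulVec) r := by
  intro H hH W₁ W₂ h12 hact
  by_contra hcon
  rw [not_lt] at hcon
  obtain ⟨n, hn, hgn⟩ := pow_mem_open H hH g
  obtain ⟨n', hn', hgn'⟩ := pow_mem_open H hH g'
  obtain ⟨J, hJ, hJ0, hJρ⟩ := hV.orthogonal ℓ
  set φ := algebraMap ℚ ℚ_[ℓ] with hφ
  have hev : ∀ {C R : ℚ[X]}, CyclotomicFactorization (C * R) C R → (R.map φ).eval (-1) ≠ 0 := by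
    intro C R h
    exact (eval_ne_of_coprime fun j hj => cyc_coprime h φ j hj).2
  apply hD
  have h1 := alg_main (two_ne_zero : (2 : ℚ_[ℓ]) ≠ 0) (V ℓ) J hJ hJ0 hJρ W₁ W₂ h12 r hcon g g' n n'
    (fun x hx => hact _ hgn x hx) (fun x hx => hact _ hgn' x hx) (C.map φ) (R.map φ) (C'.map φ)
    (R'.map φ) (h.fac.monic_left.map φ) (h.fac.monic_right.map φ) (h'.fac.monic_left.map φ)
    (h'.fac.monic_right.map φ) (by rw [h.frob ℓ hℓ, Polynomial.map_mul])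
    (by rw [h'.frob ℓ hℓ', Polynomial.map_mul]) (by rw [h.fac.monic_left.natDegree_map, hC])
    (by rw [h'.fac.monic_left.natDegree_map, hC']) (cyc_coprime h.fac φ n hn)
    (cyc_coprime h'.fac φ n' hn') (hev h.fac) (hev h'.fac)
  rw [dd_map, dd_map, ← Rat.cast_mul] at h1
  exact h1

/-- One place with a small cyclotomic part. -/
theorem one_small {V : ∀ (ℓ : ℕ) [Fact ℓ.Prime], GalK K →* Matrix (Fin m) (Fin m) ℚ_[ℓ]}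
    {𝔓 : Ideal (𝓞 Qbar)} {g : GalK K} {C R : ℚ[X]} (h : Pl V 𝔓 g C R)
    {r : ℕ} (hC : C.natDegree < r) (ℓ : ℕ) [Fact ℓ.Prime] (hℓ : (ℓ : 𝓞 Qbar) ∉ 𝔓) :
    FewTateClasses ℚ_[ℓ] (fun σ => (V ℓ σ).mulVec) r := by
  intro H hH W₁ W₂ h12 hact
  obtain ⟨n, hn, hgn⟩ := pow_mem_open H hH g
  set φ := algebraMap ℚ ℚ_[ℓ] with hφ
  have h1 := count_mat (V ℓ) W₁ W₂ g n hn (fun x hx => hact _ hgn x hx) (C.map φ) (R.map φ)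
    (h.fac.monic_left.map φ) (by rw [h.frob ℓ hℓ, Polynomial.map_mul]) (cyc_coprime h.fac φ n hn)
  rw [h.fac.monic_left.natDegree_map] at h1
  omega

/-- Data at a place of `K`. -/
theorem pl_of_place {V : ∀ (ℓ : ℕ) [Fact ℓ.Prime], GalK K →* Matrix (Fin m) (Fin m) ℚ_[ℓ]}
    {S : Finset (Ideal (𝓞 K))} {P : Ideal (𝓞 K) → ℚ[X]} (hV : OrthogonalSystem S P V)
    {v : Ideal (𝓞 K)} (hvm : v.IsMaximal) (hv : v ∉ S) {C R : ℚ[X]}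
    (hf : CyclotomicFactorization (P v) C R) :
    ∃ 𝔓 g, below K 𝔓 = v ∧ Pl V 𝔓 g C R := by
  obtain ⟨𝔓, h𝔓, hbelow, σ, hσ⟩ := geo_place v hvm
  refine ⟨𝔓, σ⁻¹, hbelow, h𝔓, ?_, ?_⟩
  · intro ℓ _ hℓ
    rw [hV.charpoly ℓ 𝔓 h𝔓 hℓ (by rw [hbelow]; exact hv) σ hσ, hbelow, hf.eq_mul]
  · rw [← hf.eq_mul]
    exact hf

theorem mem_iff {𝔓 : Ideal (𝓞 Qbar)} (ℓ : ℕ) :
    (ℓ : 𝓞 K) ∈ below K 𝔓 ↔ (ℓ : 𝓞 Qbar) ∈ 𝔓 := by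
  rw [below, Ideal.mem_comap, map_natCast]

/-- Data near a given element. -/
theorem pl_near {V : ∀ (ℓ : ℕ) [Fact ℓ.Prime], GalK K →* Matrix (Fin m) (Fin m) ℚ_[ℓ]}
    {S : Finset (Ideal (𝓞 K))} {P : Ideal (𝓞 K) → ℚ[X]} (hV : OrthogonalSystem S P V)
    (B : Finset ℕ) (s : GalK K) (U : Set (GalK K)) (hU : U ∈ 𝓝 s) :
    ∃ 𝔓 g C R, g ∈ U ∧ Pl V 𝔓 g C R ∧ ∀ ℓ ∈ B, ℓ.Prime → (ℓ : 𝓞 Qbar) ∉ 𝔓 := by
  obtain ⟨𝔓, h𝔓, hS, hB, σ, hσ, hσU⟩ := geo_dense S B s U hU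
  -- some prime number outside `𝔓`
  obtain ⟨p, hp, hp𝔓⟩ : ∃ p : ℕ, p.Prime ∧ (p : 𝓞 Qbar) ∉ 𝔓 := by
    by_contra hcon
    push Not at hcon
    exact absurd (Pool.Agent.OS.ar_unique 𝔓 h𝔓.ne_top Nat.prime_two Nat.prime_three
      (hcon 2 Nat.prime_two) (hcon 3 Nat.prime_three)) (by norm_num)
  have hpF : Fact p.Prime := ⟨hp⟩
  have hmon : (P (below K 𝔓)).Monic := by
    have h1 := hV.charpoly p 𝔓 h𝔓 hp𝔓 hS σ hσ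
    have h2 : ((P (below K 𝔓)).map (algebraMap ℚ ℚ_[p])).Monic := by
      rw [← h1]
      exact Matrix.charpoly_monic _
    exact Polynomial.monic_of_injective (algebraMap ℚ ℚ_[p]).injective h2
  obtain ⟨C, R, hCR⟩ := cyc_exists _ hmon
  refine ⟨𝔓, σ⁻¹, C, R, hσU, ⟨h𝔓, ?_, ?_⟩, hB⟩
  · intro ℓ _ hℓ
    rw [hV.charpoly ℓ 𝔓 h𝔓 hℓ hS σ hσ, hCR.eq_mul]
  · rw [← hCR.eq_mul]
    exact hCR

/-- A prime number for which `d` is not a square. -/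
theorem nonsq_prime {d : ℚ} (hd : ¬ IsSquare d) (B : Finset ℕ) :
    ∃ p : ℕ, p ∉ B ∧ ∃ _ : Fact p.Prime, ¬ IsSquare (d : ℚ_[p]) := by
  have hd0 : d ≠ 0 := by
    rintro rfl
    exact hd IsSquare.zero
  have h1 := dens (n := 1) (fun _ => d) (fun _ => hd0) (by
    intro s hs
    have h2 : s = {0} := by
      obtain ⟨i, hi⟩ := hs
      ext j
      constructor
      · intro _
        rw [Finset.mem_singleton]
        exact Subsingleton.elim _ _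
      · intro hj
        rw [Finset.mem_singleton] at hj
        rw [hj, ← Subsingleton.elim i 0]
        exact hi
    rw [h2, Finset.prod_singleton]
    exact hd) (1 / 4) (by norm_num) (by norm_num)
  obtain ⟨p, hp, hpS, hpB⟩ := Pool.Agent.TT.fr_inf (by norm_num) h1 B
  have hpF : Fact p.Prime := ⟨hp⟩
  obtain ⟨i, hi⟩ := hpS hpF
  exact ⟨p, hpB, hpF, hi⟩

/-- Transitivity of square classes. -/
theorem sq_trans {k : Type} [Field k] {a b c : k} (hb : b ≠ 0) (h1 : IsSquare (a * b))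
    (h2 : IsSquare (b * c)) : IsSquare (a * c) := by
  obtain ⟨x, hx⟩ := h1
  obtain ⟨y, hy⟩ := h2
  refine ⟨x * y / b, ?_⟩
  field_simp
  linear_combination (b * c) * hx + x * x * hy

theorem cast_sq {d : ℚ} (hd : IsSquare d) (p : ℕ) [Fact p.Prime] : IsSquare (d : ℚ_[p]) := by
  obtain ⟨x, rfl⟩ := hd
  exact ⟨(x : ℚ_[p]), by rw [Rat.cast_mul]⟩

/-- Neighbourhoods of a power of the inverse of a Frobenius element. -/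
theorem near_pow {V : ∀ (ℓ : ℕ) [Fact ℓ.Prime], GalK K →* Matrix (Fin m) (Fin m) ℚ_[ℓ]}
    {S : Finset (Ideal (𝓞 K))} {P : Ideal (𝓞 K) → ℚ[X]} (hV : OrthogonalSystem S P V)
    {𝔓 : Ideal (𝓞 Qbar)} {g : GalK K} {C R : ℚ[X]} (h : Pl V 𝔓 g C R) {r : ℕ}
    (hC : C.natDegree = r) (hmin : ∀ 𝔓' g' C' R', Pl V 𝔓' g' C' R' → r ≤ C'.natDegree)
    (ℓ : ℕ) [Fact ℓ.Prime] (hℓ : (ℓ : 𝓞 Qbar) ∉ 𝔓) (q : ℕ) (hq : 0 < q) :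
    ∀ᶠ B in 𝓝 (V ℓ (g ^ q)), ∀ 𝔓' g' C' R', Pl V 𝔓' g' C' R' → (ℓ : 𝓞 Qbar) ∉ 𝔓' →
      V ℓ g' = B → C'.natDegree = r ∧ IsSquare ((DD R' * DD R : ℚ) : ℚ_[ℓ]) := by
  obtain ⟨J, hJ, hJ0, hJρ⟩ := hV.orthogonal ℓ
  obtain ⟨n, e, hn, hdvd⟩ := cyc_dvd C h.fac.monic_left h.fac.left
  set φ := algebraMap ℚ ℚ_[ℓ] with hφ
  have hCn : C.map φ ∣ (X ^ n - 1) ^ e := by
    have h4 := Polynomial.map_dvd φ hdvd
    rw [Polynomial.map_pow, Polynomial.map_sub, Polynomial.map_pow, Polynomial.map_X,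
      Polynomial.map_one] at h4
    exact h4
  obtain ⟨C₁, R₁, hC₁, hR₁, hCR₁, hdeg, hcop, hsq⟩ := pow_mat (two_ne_zero : (2 : ℚ_[ℓ]) ≠ 0) (V ℓ)
    J hJ hJ0 hJρ g (C.map φ) (R.map φ) (h.fac.monic_left.map φ) (h.fac.monic_right.map φ)
    (by rw [h.frob ℓ hℓ, Polynomial.map_mul]) n e hCn hn (fun j hj => cyc_coprime h.fac φ j hj) q hq
  have hne := eval_ne_of_coprime hcop
  have h1 := lim_main (V ℓ (g ^ q)) C₁ R₁ hC₁ hCR₁ hcop hne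
  filter_upwards [h1] with B hB 𝔓' g' C' R' h' hℓ' hgB
  obtain ⟨h2, h3⟩ := hB (C' * R') C' R' h'.fac (by rw [← hgB]; exact h'.frob ℓ hℓ')
  rw [h.fac.monic_left.natDegree_map, hC] at hdeg
  have h4 : C'.natDegree = r := by
    have := hmin 𝔓' g' C' R' h'
    omega
  refine ⟨h4, ?_⟩
  have h5 := h3 (by rw [h4, hdeg])
  rw [dd_map] at hsq
  have h6 : IsSquare (((DD R' : ℚ) : ℚ_[ℓ]) * (R₁.eval 1 * R₁.eval (-1))) := h5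
  have h7 : IsSquare ((R₁.eval 1 * R₁.eval (-1)) * ((DD R : ℚ) : ℚ_[ℓ])) := by
    rw [mul_comm]
    exact hsq
  rw [Rat.cast_mul]
  exact sq_trans (mul_ne_zero hne.1 hne.2) h6 h7

/-- The extension step. -/
theorem step {V : ∀ (ℓ : ℕ) [Fact ℓ.Prime], GalK K →* Matrix (Fin m) (Fin m) ℚ_[ℓ]}
    {S : Finset (Ideal (𝓞 K))} {P : Ideal (𝓞 K) → ℚ[X]} (hV : OrthogonalSystem S P V)
    {𝔓 𝔓' : Ideal (𝓞 Qbar)} {g g' : GalK K} {C R C' R' : ℚ[X]} (h : Pl V 𝔓 g C R)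
    (h' : Pl V 𝔓' g' C' R') {r : ℕ} (hC : C.natDegree = r) (hC' : C'.natDegree = r)
    (hD : ¬ IsSquare (DD R * DD R'))
    (hmin : ∀ 𝔓' g' C' R', Pl V 𝔓' g' C' R' → r ≤ C'.natDegree)
    (Λ : Finset ℕ) (hΛ : ∀ ℓ ∈ Λ, (ℓ : 𝓞 Qbar) ∉ 𝔓) :
    ∃ 𝔓₁ g₁ C₁ R₁, Pl V 𝔓₁ g₁ C₁ R₁ ∧ C₁.natDegree = r ∧ ¬ IsSquare (DD R₁ * DD R) ∧
      ∀ ℓ ∈ Λ, ∀ _ : Fact ℓ.Prime, IsSquare ((DD R₁ * DD R : ℚ) : ℚ_[ℓ]) := by
  classical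
  have hgal : IsGalois K Qbar := Pool.Agent.OS.ar_galois
  -- the prime number `p`
  obtain ⟨u, hu, hu𝔓⟩ := Pool.Agent.OS.ar_prime 𝔓 h.max
  obtain ⟨u', hu', hu𝔓'⟩ := Pool.Agent.OS.ar_prime 𝔓' h'.max
  obtain ⟨p, hpB, hpF, hpD⟩ := nonsq_prime hD (Λ ∪ {u, u'})
  have hpΛ : p ∉ Λ := fun hx => hpB (Finset.mem_union_left _ hx)
  have hp𝔓' : (p : 𝓞 Qbar) ∉ 𝔓' := by
    intro hx
    apply hpB
    rw [Pool.Agent.OS.ar_unique 𝔓' h'.max.ne_top hpF.out hu' hx hu𝔓']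
    simp
  obtain ⟨k, hk, hcrt⟩ := crt V hV.continuous Λ p hpΛ g g'
  -- the neighbourhoods
  have hnb : ∃ ε : ℝ, 0 < ε ∧ (∀ ℓ ∈ Λ, ∀ _ : Fact ℓ.Prime,
      ∀ B : Matrix (Fin m) (Fin m) ℚ_[ℓ], (∀ i j, ‖(B - V ℓ (g ^ k)) i j‖ < ε) →
        ∀ 𝔓' g' C' R', Pl V 𝔓' g' C' R' → (ℓ : 𝓞 Qbar) ∉ 𝔓' →
          V ℓ g' = B → C'.natDegree = r ∧ IsSquare ((DD R' * DD R : ℚ) : ℚ_[ℓ])) ∧
      (∀ B : Matrix (Fin m) (Fin m) ℚ_[p], (∀ i j, ‖(B - V p (g' ^ k)) i j‖ < ε) →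
        ∀ 𝔓₁ g₁ C₁ R₁, Pl V 𝔓₁ g₁ C₁ R₁ → (p : 𝓞 Qbar) ∉ 𝔓₁ →
          V p g₁ = B → C₁.natDegree = r ∧ IsSquare ((DD R₁ * DD R' : ℚ) : ℚ_[p])) := by
    have hball : ∀ (ℓ : ℕ) [Fact ℓ.Prime] (A : Matrix (Fin m) (Fin m) ℚ_[ℓ])
        (Q : Matrix (Fin m) (Fin m) ℚ_[ℓ] → Prop), (∀ᶠ B in 𝓝 A, Q B) →
        ∃ ε : ℝ, 0 < ε ∧ ∀ B, (∀ i j, ‖(B - A) i j‖ < ε) → Q B := by
      intro ℓ _ A Q hQ
      have h1 : ∀ᶠ B : Fin m → Fin m → ℚ_[ℓ] in 𝓝 (fun i j => A i j), Q (Matrix.of B) := hQ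
      rw [Metric.eventually_nhds_iff] at h1
      obtain ⟨ε, hε, h2⟩ := h1
      refine ⟨ε, hε, ?_⟩
      intro B hB
      have h3 := h2 (y := fun i j => B i j) (by
        rw [dist_pi_lt_iff hε]
        intro i
        rw [dist_pi_lt_iff hε]
        intro j
        rw [dist_eq_norm]
        exact hB i j)
      exact h3
    have h1 : ∀ ℓ ∈ Λ, ∃ ε : ℝ, 0 < ε ∧ ∀ _ : Fact ℓ.Prime,
      ∀ B : Matrix (Fin m) (Fin m) ℚ_[ℓ], (∀ i j, ‖(B - V ℓ (g ^ k)) i j‖ < ε) →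
        ∀ 𝔓' g' C' R', Pl V 𝔓' g' C' R' → (ℓ : 𝓞 Qbar) ∉ 𝔓' →
          V ℓ g' = B → C'.natDegree = r ∧ IsSquare ((DD R' * DD R : ℚ) : ℚ_[ℓ]) := by
      intro ℓ hℓ
      by_cases hp : Fact ℓ.Prime
      · obtain ⟨ε, hε, h2⟩ := hball ℓ _ _ (near_pow hV h hC hmin ℓ (hΛ ℓ hℓ) k hk)
        exact ⟨ε, hε, fun _ => h2⟩
      · exact ⟨1, one_pos, fun hp' => absurd hp' hp⟩
    choose! ε hε h2 using h1
    obtain ⟨ε', hε', h3⟩ := hball p _ _ (near_pow hV h' hC' hmin p hp𝔓' k hk)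
    obtain ⟨δ, hδ, hδ2⟩ : ∃ δ : ℝ, 0 < δ ∧ ∀ ℓ ∈ Λ, δ ≤ ε ℓ := by
      by_cases hne : Λ.Nonempty
      · refine ⟨Λ.inf' hne ε, ?_, ?_⟩
        · rw [Finset.lt_inf'_iff]
          exact hε
        · intro ℓ hℓ
          exact Finset.inf'_le _ hℓ
      · exact ⟨1, one_pos, fun ℓ hℓ => absurd ⟨ℓ, hℓ⟩ hne⟩
    refine ⟨min δ ε', lt_min hδ hε', ?_, ?_⟩
    · intro ℓ hℓ hF B hB
      exact h2 ℓ hℓ hF B fun i j => (hB i j).trans_le ((min_le_left _ _).trans (hδ2 ℓ hℓ))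
    · intro B hB
      exact h3 B fun i j => (hB i j).trans_le (min_le_right _ _)
  obtain ⟨ε, hε, hn1, hn2⟩ := hnb
  obtain ⟨s, hs1, hs2⟩ := hcrt ε hε
  -- the neighbourhood of `s`
  have hopen : ∀ (ℓ : ℕ) [Fact ℓ.Prime] (A : Matrix (Fin m) (Fin m) ℚ_[ℓ]),
      (∀ i j, ‖(V ℓ s - A) i j‖ < ε) → {y : GalK K | ∀ i j, ‖(V ℓ y - A) i j‖ < ε} ∈ 𝓝 s := by
    intro ℓ _ A hA
    have h1 : IsOpen {y : GalK K | ∀ i j, ‖(V ℓ y - A) i j‖ < ε} := by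
      have h2 : {y : GalK K | ∀ i j, ‖(V ℓ y - A) i j‖ < ε} =
          ⋂ i : Fin m, ⋂ j : Fin m, {y : GalK K | ‖(V ℓ y - A) i j‖ < ε} := by
        ext y
        simp
      rw [h2]
      apply isOpen_iInter_of_finite
      intro i
      apply isOpen_iInter_of_finite
      intro j
      have h3 : Continuous fun y : GalK K => ‖(V ℓ y - A) i j‖ := by
        have h4 : Continuous fun y : GalK K => V ℓ y - A := (hV.continuous ℓ).sub continuous_const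
        exact (h4.matrix_elem i j).norm
      exact isOpen_lt h3 continuous_const
    exact h1.mem_nhds hA
  have hU : (⋂ ℓ ∈ Λ, {y : GalK K | ∀ _ : Fact ℓ.Prime, ∀ i j, ‖(V ℓ y - V ℓ (g ^ k)) i j‖ < ε}) ∩
      {y : GalK K | ∀ i j, ‖(V p y - V p (g' ^ k)) i j‖ < ε} ∈ 𝓝 s := by
    apply Filter.inter_mem
    · rw [Filter.biInter_finset_mem]
      intro ℓ hℓ
      by_cases hp : Fact ℓ.Prime
      · have h1 := hopen ℓ (V ℓ (g ^ k)) (hs1 ℓ hℓ hp)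
        filter_upwards [h1] with y hy _
        exact hy
      · filter_upwards with y hp'
        exact absurd hp' hp
    · exact hopen p _ hs2
  obtain ⟨𝔓₁, g₁, C₁, R₁, hg₁, hPl, hB⟩ := pl_near hV (Λ ∪ {p}) s _ hU
  obtain ⟨hg₁a, hg₁b⟩ := hg₁
  have hp₁ : (p : 𝓞 Qbar) ∉ 𝔓₁ := hB p (by simp) hpF.out
  obtain ⟨hdeg, hsqp⟩ := hn2 _ hg₁b 𝔓₁ g₁ C₁ R₁ hPl hp₁ rfl
  refine ⟨𝔓₁, g₁, C₁, R₁, hPl, hdeg, ?_, ?_⟩
  · intro hsq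
    apply hpD
    have h1 := cast_sq hsq p
    rw [Rat.cast_mul] at h1 hsqp ⊢
    have h0 : ((DD R₁ : ℚ) : ℚ_[p]) ≠ 0 := by
      exact_mod_cast dd_ne hPl.fac
    apply sq_trans h0 _ hsqp
    rw [mul_comm]
    exact h1
  · intro ℓ hℓ hF
    rw [Set.mem_iInter₂] at hg₁a
    exact (hn1 ℓ hℓ hF _ (hg₁a ℓ hℓ hF) 𝔓₁ g₁ C₁ R₁ hPl
      (hB ℓ (Finset.mem_union_left _ hℓ) hF.out) rfl).2

end

end Pool.Agent.VL
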